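import Pool.Agent.ThS.Defs

/-! # Module Spa: spaces with an alternating form -/

namespace ThS
open Module

variable {K V : Type*} [Field K] [AddCommGroup V] [Module K V] (q : AF K V)
variable {U : Submodule K V} {a b : V}

/-- `s = h b x / h b a`, `t = h a x / h a b` -/
theorem perp2_dec (ha : a ∈ U) (hb : b ∈ U) (hab : q.h a b ≠ 0) (x : V) (hx : x ∈ U) :
    ∃ s t : K, x - s • a - t • b ∈ q.perp2 U a b := by
  have hba : q.h b a ≠ 0 := fun h => hab (q.swap_zero h)
  refine ⟨q.h b x / q.h b a, q.h a x / q.h a b, ?_⟩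
  rw [q.mem_perp2]
  refine ⟨U.sub_mem (U.sub_mem hx (U.smul_mem _ ha)) (U.smul_mem _ hb), ?_, ?_⟩
  · rw [map_sub, map_sub, map_smul, map_smul, q.alt, smul_eq_mul, smul_eq_mul, mul_zero,
      sub_zero, div_mul_cancel₀ _ hab, sub_self]
  · rw [map_sub, map_sub, map_smul, map_smul, q.alt, smul_eq_mul, smul_eq_mul, mul_zero,
      sub_zero, div_mul_cancel₀ _ hba, sub_self]

/-- see `Pool/Agent/ThU/Spc.lean` or `Pool/Agent/ThQ/Spq.lean` (the same for other forms) -/
theorem perp2_ND (hU : q.ND U) (ha : a ∈ U) (hb : b ∈ U) (hab : q.h a b ≠ 0) :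
    q.ND (q.perp2 U a b) := by
  intro x hx hxy
  have hx' := (q.mem_perp2).1 hx
  refine hU x hx'.1 fun y hy => ?_
  obtain ⟨s, t, hst⟩ := perp2_dec q ha hb hab y hy
  have h1 := hxy _ hst
  have h2 : q.h x a = 0 := q.swap_zero hx'.2.1
  have h3 : q.h x b = 0 := q.swap_zero hx'.2.2
  rw [map_sub, map_sub, map_smul, map_smul, h2, h3, smul_zero, smul_zero, sub_zero, sub_zero] at h1
  exact h1

/-- see `Pool/Agent/ThU/Spc.lean` or `Pool/Agent/ThQ/Spq.lean` -/
theorem perp2_finrank [FiniteDimensional K V] (ha : a ∈ U) (hb : b ∈ U) (hab : q.h a b ≠ 0) :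
    finrank K U = finrank K (q.perp2 U a b) + 2 := by
  have hba : q.h b a ≠ 0 := fun h => hab (q.swap_zero h)
  let φ : U →ₗ[K] K × K := ((q.h a).prod (q.h b)).comp U.subtype
  have hφ : ∀ x : U, φ x = (q.h a x.1, q.h b x.1) := fun x => rfl
  have hsurj : Function.Surjective φ := by
    rintro ⟨p, r⟩
    refine ⟨⟨(r / q.h b a) • a + (p / q.h a b) • b,
      U.add_mem (U.smul_mem _ ha) (U.smul_mem _ hb)⟩, ?_⟩
    rw [hφ]
    simp only [map_add, map_smul, smul_eq_mul, q.alt, mul_zero, zero_add, add_zero]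
    rw [div_mul_cancel₀ _ hab, div_mul_cancel₀ _ hba]
  have hle : q.perp2 U a b ≤ U := inf_le_left
  have hker : LinearMap.ker φ = (q.perp2 U a b).comap U.subtype := by
    ext x
    rw [LinearMap.mem_ker, hφ, Submodule.mem_comap, Submodule.subtype_apply, q.mem_perp2,
      Prod.mk_eq_zero]
    exact ⟨fun h => ⟨x.2, h⟩, fun h => h.2⟩
  have h1 := φ.finrank_range_add_finrank_ker
  rw [LinearMap.range_eq_top.2 hsurj, finrank_top, hker,
    (Submodule.comapSubtypeEquivOfLe hle).finrank_eq, Module.finrank_prod, finrank_self] at h1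
  omega

/-- Riesz; see `Pool/Agent/ThU/Spc.lean` or `Pool/Agent/ThQ/Spq.lean` -/
theorem riesz [FiniteDimensional K V] (hU : q.ND U) (φ : V →ₗ[K] K) :
    ∃ b ∈ U, ∀ x ∈ U, φ x = q.h b x := by
  let N : Submodule K (Dual K U) :=
    { carrier := {ψ | ∃ b ∈ U, ∀ x : U, ψ x = q.h b x.1}
      add_mem' := by
        rintro ψ ψ' ⟨b, hb, h1⟩ ⟨b', hb', h1'⟩
        exact ⟨b + b', U.add_mem hb hb', fun x => by
          rw [LinearMap.add_apply, h1, h1', q.add_left]⟩
      zero_mem' := ⟨0, U.zero_mem, fun x => by rw [q.zero_left]; rfl⟩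
      smul_mem' := by
        rintro c ψ ⟨b, hb, h1⟩
        exact ⟨c • b, U.smul_mem _ hb, fun x => by
          rw [LinearMap.smul_apply, h1, q.smul_left, smul_eq_mul]⟩ }
  have hN : N = ⊤ := by
    by_contra hne
    obtain ⟨f, hf, hle⟩ := Submodule.exists_le_ker_of_lt_top N (lt_top_iff_ne_top.2 hne)
    obtain ⟨x, rfl⟩ := (Module.evalEquiv K U).surjective f
    apply hf
    have hx : x = 0 := by
      apply Subtype.ext
      refine hU x.1 x.2 fun y hy => ?_
      refine q.swap_zero ?_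
      have hmem : ((q.h y).comp U.subtype) ∈ N := ⟨y, hy, fun z => rfl⟩
      have := hle hmem
      rw [LinearMap.mem_ker] at this
      exact this
    rw [hx, map_zero]
  have h1 : φ.comp U.subtype ∈ N := by rw [hN]; exact Submodule.mem_top
  obtain ⟨b, hb, h2⟩ := h1
  exact ⟨b, hb, fun x hx => h2 ⟨x, hx⟩⟩

/-- nondegeneracy and scaling -/
theorem partner (hU : q.ND U) {w : V} (hw : w ∈ U) (hn : w ≠ 0) : ∃ w' ∈ U, q.h w' w = 1 := by
  obtain ⟨y, hy, hne⟩ : ∃ y ∈ U, q.h w y ≠ 0 := by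
    by_contra hcon
    push Not at hcon
    exact hn (hU w hw hcon)
  refine ⟨(-(q.h w y)⁻¹) • y, U.smul_mem _ hy, ?_⟩
  rw [q.smul_left, q.symm w y, neg_mul_neg, inv_mul_cancel₀ hne]

/-- `G` is injective on `U` by nondegeneracy -/
theorem iso_inj (hU : q.ND U) {G : V →ₗ[K] V} (hG : q.Iso U G) {x : V} (hx : x ∈ U) (h : G x = 0) :
    x = 0 := by
  refine hU x hx fun y hy => ?_
  rw [← hG.2 x hx y hy, h, q.zero_left]

theorem iso_id : q.Iso U LinearMap.id := ⟨fun _ h => h, fun _ _ _ _ => rfl⟩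

/-- adding a pair -/
theorem hyp_cons {w w' : V} (hw : w ∈ U) (hw' : w' ∈ U) (h1 : q.h w' w = 1) {n : ℕ}
    {v v' : Fin n → V} (h : q.Hyp (q.perp2 U w w') v v') :
    q.Hyp U (Fin.cons w v : Fin (n + 1) → V) (Fin.cons w' v' : Fin (n + 1) → V) := by
  have m := fun i => (q.mem_perp2).1 (h.mem i)
  have m' := fun i => (q.mem_perp2).1 (h.mem' i)
  refine ⟨?_, ?_, ?_, ?_, ?_⟩
  · intro i
    refine Fin.cases ?_ (fun i => ?_) i
    · exact hw
    · exact (m i).1
  · intro i
    refine Fin.cases ?_ (fun i => ?_) i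
    · exact hw'
    · exact (m' i).1
  · intro i j
    refine Fin.cases ?_ (fun i => ?_) i <;> refine Fin.cases ?_ (fun j => ?_) j
    · exact q.alt w
    · exact (m j).2.1
    · exact q.swap_zero (m i).2.1
    · exact h.iso i j
  · intro i j
    refine Fin.cases ?_ (fun i => ?_) i <;> refine Fin.cases ?_ (fun j => ?_) j
    · exact q.alt w'
    · exact (m' j).2.2
    · exact q.swap_zero (m' i).2.2
    · exact h.iso' i j
  · intro i j
    refine Fin.cases ?_ (fun i => ?_) i <;> refine Fin.cases ?_ (fun j => ?_) j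
    · rw [Fin.cons_zero, Fin.cons_zero, h1, if_pos rfl]
    · rw [Fin.cons_zero, Fin.cons_succ, if_neg (Fin.succ_ne_zero j).symm]
      exact (m j).2.2
    · rw [Fin.cons_zero, Fin.cons_succ, if_neg (Fin.succ_ne_zero i)]
      exact q.swap_zero (m' i).2.1
    · simp only [Fin.cons_succ, Fin.succ_inj]
      exact h.dual i j

/-- Induction on `finrank U`: `finrank U = 0`: the empty system.  Otherwise take `w ≠ 0` in `U`, a partner `w'`, and
`perp2 U w w'` (`perp2_ND`, `perp2_finrank`, `hyp_cons`). -/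
theorem hyp_all [FiniteDimensional K V] (U : Submodule K V) (hU : q.ND U) :
    ∃ (n : ℕ) (w w' : Fin n → V), finrank K U = 2 * n ∧ q.Hyp U w w' := by
  induction hk : finrank K U using Nat.strong_induction_on generalizing U with
  | _ k ih =>
    by_cases hU0 : U = ⊥
    · refine ⟨0, Fin.elim0, Fin.elim0, ?_, ⟨fun i => i.elim0, fun i => i.elim0, fun i => i.elim0,
        fun i => i.elim0, fun i => i.elim0⟩⟩
      rw [hU0, finrank_bot] at hk
      omega
    · obtain ⟨w, hw, hw0⟩ := Submodule.exists_mem_ne_zero_of_ne_bot hU0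
      obtain ⟨w', hw', h1⟩ := partner q hU hw hw0
      have h1' : q.h w w' ≠ 0 := by
        rw [q.symm w' w, h1]
        exact neg_ne_zero.2 one_ne_zero
      have hfr := perp2_finrank q hw hw' h1'
      obtain ⟨n, v, v', hn, hv⟩ := ih (finrank K (q.perp2 U w w')) (by omega) (q.perp2 U w w')
        (perp2_ND q hU hw hw' h1') rfl
      exact ⟨n + 1, _, _, by omega, hyp_cons q hw hw' h1 hv⟩

theorem hyp_ex [FiniteDimensional K V] {n : ℕ} (hU : q.ND U) (hf : finrank K U = 2 * n) :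
    ∃ w w' : Fin n → V, q.Hyp U w w' := by
  obtain ⟨n', w, w', h1, h2⟩ := hyp_all q U hU
  obtain rfl : n' = n := by omega
  exact ⟨w, w', h2⟩

/-- union of systems of two orthogonal subspaces of `U` -/
theorem hyp_sum {A B : Submodule K V} (hA : A ≤ U) (hB : B ≤ U)
    (hAB : ∀ x ∈ A, ∀ y ∈ B, q.h x y = 0) {ι κ : Type*} [DecidableEq ι] [DecidableEq κ]
    {w w' : ι → V} {v v' : κ → V} (h : q.Hyp A w w') (h' : q.Hyp B v v') :
    q.Hyp U (Sum.elim w v) (Sum.elim w' v') := by
  refine ⟨?_, ?_, ?_, ?_, ?_⟩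
  · rintro (i | i)
    · exact hA (h.mem i)
    · exact hB (h'.mem i)
  · rintro (i | i)
    · exact hA (h.mem' i)
    · exact hB (h'.mem' i)
  · rintro (i | i) (j | j)
    · exact h.iso i j
    · exact hAB _ (h.mem i) _ (h'.mem j)
    · exact q.swap_zero (hAB _ (h.mem j) _ (h'.mem i))
    · exact h'.iso i j
  · rintro (i | i) (j | j)
    · exact h.iso' i j
    · exact hAB _ (h.mem' i) _ (h'.mem' j)
    · exact q.swap_zero (hAB _ (h.mem' j) _ (h'.mem' i))
    · exact h'.iso' i j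
  · rintro (i | i) (j | j)
    · simp only [Sum.elim_inl, Sum.inl.injEq]
      exact h.dual i j
    · simp only [Sum.elim_inl, Sum.elim_inr, reduceCtorEq, if_false]
      exact hAB _ (h.mem' i) _ (h'.mem j)
    · simp only [Sum.elim_inl, Sum.elim_inr, reduceCtorEq, if_false]
      exact q.swap_zero (hAB _ (h.mem j) _ (h'.mem' i))
    · simp only [Sum.elim_inr, Sum.inr.injEq]
      exact h'.dual i j

end ThS
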