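import Mathlib

/-!
# Thompson's conjecture for symplectic groups: definitions

`K` is a field, alternating forms are given by the structure `AF`.  The proofs of the modules are sketched in the
docstrings of the statements.
-/

namespace ThS
open Matrix Module

/-- an alternating form -/
structure AF (K V : Type*) [Field K] [AddCommGroup V] [Module K V] where
  h : V → V →ₗ[K] K
  alt : ∀ x, h x x = 0
  symm : ∀ x y, h y x = -h x y

variable {K V : Type*} [Field K] [AddCommGroup V] [Module K V] (q : AF K V)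

namespace AF

theorem add_left (x y z : V) : q.h (x + y) z = q.h x z + q.h y z := by
  rw [q.symm z (x + y), map_add, q.symm x z, q.symm y z]
  ring

theorem smul_left (c : K) (x y : V) : q.h (c • x) y = c * q.h x y := by
  rw [q.symm y (c • x), map_smul, smul_eq_mul, q.symm x y]
  ring

theorem zero_left (y : V) : q.h 0 y = 0 := by
  rw [q.symm y 0, map_zero, neg_zero]

theorem neg_left (x y : V) : q.h (-x) y = -q.h x y := by
  rw [q.symm y (-x), map_neg, q.symm x y]
  ring

theorem sub_left (x y z : V) : q.h (x - y) z = q.h x z - q.h y z := by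
  rw [sub_eq_add_neg, q.add_left, q.neg_left, sub_eq_add_neg]

theorem swap_zero {x y : V} (h : q.h x y = 0) : q.h y x = 0 := by
  rw [q.symm x y, h, neg_zero]

/-- the form is nondegenerate on the subspace `U` -/
def ND (U : Submodule K V) : Prop := ∀ x ∈ U, (∀ y ∈ U, q.h x y = 0) → x = 0

/-- `G` maps `U` to `U` and preserves the form on `U` -/
def Iso (U : Submodule K V) (G : V →ₗ[K] V) : Prop :=
  (∀ x ∈ U, G x ∈ U) ∧ ∀ x ∈ U, ∀ y ∈ U, q.h (G x) (G y) = q.h x y

/-- the vectors of `U` which are orthogonal to `a` and `b` -/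
def perp2 (U : Submodule K V) (a b : V) : Submodule K V :=
  U ⊓ (LinearMap.ker (q.h a) ⊓ LinearMap.ker (q.h b))

theorem mem_perp2 {U : Submodule K V} {a b x : V} :
    x ∈ q.perp2 U a b ↔ x ∈ U ∧ q.h a x = 0 ∧ q.h b x = 0 := by
  simp [perp2]

/-- The isometry induced by `G` on `perp2 U w (G w)` (where `h w (G w) ≠ 0`):
`G x = g1 x + β x • G w` with `β x = h w (G x) / h w (G w)`. -/
noncomputable def g1 (G : V →ₗ[K] V) (w : V) : V →ₗ[K] V :=
  G - ((q.h w).comp G).smulRight ((q.h w (G w))⁻¹ • G w)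

theorem g1_apply (G : V →ₗ[K] V) (w x : V) :
    q.g1 G w x = G x - (q.h w (G x) * (q.h w (G w))⁻¹) • G w := by
  simp [g1, smul_smul]

/-- The isometry induced by `G` on `perp2 U w w'` (where `w` is an eigenvector and `h w' w = 1`):
`G x = g2 x + h w' (G x) • w`. -/
noncomputable def g2 (G : V →ₗ[K] V) (w w' : V) : V →ₗ[K] V :=
  G - ((q.h w').comp G).smulRight w

theorem g2_apply (G : V →ₗ[K] V) (w w' x : V) : q.g2 G w w' x = G x - q.h w' (G x) • w := by
  simp [g2]

/-- a hyperbolic system of pairs `w i`, `w' i` in `U` -/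
structure Hyp (U : Submodule K V) {ι : Type*} [DecidableEq ι] (w w' : ι → V) : Prop where
  mem : ∀ i, w i ∈ U
  mem' : ∀ i, w' i ∈ U
  iso : ∀ i j, q.h (w i) (w j) = 0
  iso' : ∀ i j, q.h (w' i) (w' j) = 0
  dual : ∀ i j, q.h (w' i) (w j) = if i = j then 1 else 0

/-- `G` has the block `a` in a hyperbolic system of `U` -/
def Sys (U : Submodule K V) (G : V →ₗ[K] V) {ι : Type*} [DecidableEq ι] (a : Matrix ι ι K) : Prop :=
  ∃ w w' : ι → V, q.Hyp U w w' ∧ ∀ i j, q.h (w' i) (G (w j)) = a i j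

/-- `G` has a triangular block with the diagonal `l` -/
def Tri (U : Submodule K V) (G : V →ₗ[K] V) (n : ℕ) (l : Fin n → K) : Prop :=
  ∃ w w' : Fin n → V, q.Hyp U w w' ∧ (∀ i j, j < i → q.h (w' i) (G (w j)) = 0) ∧
    ∀ i, q.h (w' i) (G (w i)) = l i

theorem Sys.reindex {q : AF K V} {U : Submodule K V} {G : V →ₗ[K] V} {ι ι' : Type*} [DecidableEq ι]
    [DecidableEq ι'] (e : ι ≃ ι') {a : Matrix ι ι K} (h : q.Sys U G a) :
    q.Sys U G (Matrix.reindex e e a) := by
  obtain ⟨w, w', h, ha⟩ := h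
  refine ⟨fun i => w (e.symm i), fun i => w' (e.symm i), ⟨fun i => h.mem _, fun i => h.mem' _,
    fun i j => h.iso _ _, fun i j => h.iso' _ _, fun i j => ?_⟩, fun i j => ha _ _⟩
  rw [h.dual]
  simp only [e.symm.injective.eq_iff]

end AF

/-- `G` is a scalar on `U` -/
def Scal (U : Submodule K V) (G : V →ₗ[K] V) : Prop := ∃ c : K, ∀ x ∈ U, G x = c • x

/-- `G` is `ε` times a transvection (or `ε`) on `U` -/
def AF.Trv (U : Submodule K V) (G : V →ₗ[K] V) (ε : K) : Prop :=
  ∃ u ∈ U, ∃ c : K, ∀ x ∈ U, G x = ε • x + (c * q.h u x) • u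

end ThS
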