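import Pool.Agent.ThS.Grp

/-! # Module Frm: hyperbolic systems of the standard space and symplectic matrices -/

namespace ThS
open Matrix Module

variable {K : Type*} [Field K] {n : ℕ}

/-- the standard form: `h x y = x ⬝ᵥ (J *ᵥ y)`; `h (w' i) (w j) = δ i j` for `w j = Pi.single (Sum.inl j) 1`,
`w' i = Pi.single (Sum.inr i) 1` -/
def hS (K : Type*) [Field K] (n : ℕ) : AF K (Fin n ⊕ Fin n → K) where
  h x :=
    { toFun := fun y => x ⬝ᵥ (J (Fin n) K *ᵥ y)
      map_add' := fun y z => by rw [mulVec_add, dotProduct_add]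
      map_smul' := fun c y => by rw [mulVec_smul, dotProduct_smul, RingHom.id_apply] }
  alt x := by
    show x ⬝ᵥ (J (Fin n) K *ᵥ x) = 0
    rw [J, fromBlocks_mulVec, dotProduct, Fintype.sum_sum_type]
    simp only [zero_mulVec, neg_mulVec, one_mulVec, zero_add, add_zero, Sum.elim_inl, Sum.elim_inr,
      Pi.neg_apply, Function.comp_apply, mul_neg, Finset.sum_neg_distrib]
    rw [neg_add_eq_zero]
    exact Finset.sum_congr rfl fun i _ => mul_comm _ _
  symm x y := by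
    show y ⬝ᵥ (J (Fin n) K *ᵥ x) = -(x ⬝ᵥ (J (Fin n) K *ᵥ y))
    rw [dotProduct_mulVec, dotProduct_comm, ← mulVec_transpose, J_transpose, neg_mulVec,
      dotProduct_neg]

theorem hS_apply (x y : Fin n ⊕ Fin n → K) : (hS K n).h x y = x ⬝ᵥ (J (Fin n) K *ᵥ y) := rfl

/-- `J` is invertible -/
theorem hS_ND : (hS K n).ND ⊤ := by
  intro x _ h
  have h1 : ∀ z : Fin n ⊕ Fin n → K, x ⬝ᵥ z = 0 := by
    intro z
    have h2 := h ((-J (Fin n) K) *ᵥ z) trivial
    rw [hS_apply, mulVec_mulVec, Matrix.mul_neg, J_squared, neg_neg, one_mulVec] at h2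
    exact h2
  funext i
  have h3 := h1 (Pi.single i 1)
  rw [dotProduct_single, mul_one] at h3
  exact h3

/-- `gᵀ J g = J` (`SymplecticGroup.mem_iff'`) -/
theorem sp_iso (g : symplecticGroup (Fin n) K) :
    (hS K n).Iso ⊤ (Matrix.mulVecLin (g : Matrix (Fin n ⊕ Fin n) (Fin n ⊕ Fin n) K)) := by
  refine ⟨fun _ _ => trivial, fun x _ y _ => ?_⟩
  have h1 := SymplecticGroup.mem_iff'.1 g.2
  rw [hS_apply, hS_apply, mulVecLin_apply, mulVecLin_apply, mulVec_mulVec, dotProduct_comm,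
    dotProduct_mulVec, ← mulVec_transpose, mulVec_mulVec, dotProduct_comm, ← Matrix.mul_assoc, h1]

private theorem Frm_entry (P N : Matrix (Fin n ⊕ Fin n) (Fin n ⊕ Fin n) K) (i j : Fin n ⊕ Fin n) :
    (Pᵀ * (N * P)) i j = (fun x => P x i) ⬝ᵥ (N *ᵥ fun y => P y j) := by
  simp only [Matrix.mul_apply, Matrix.transpose_apply, dotProduct, mulVec]

private theorem Frm_J11 (X : Matrix (Fin n ⊕ Fin n) (Fin n ⊕ Fin n) K) :
    ((-J (Fin n) K) * X).toBlocks₁₁ = X.toBlocks₂₁ := by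
  nth_rw 1 [← fromBlocks_toBlocks X]
  rw [J, fromBlocks_neg, fromBlocks_multiply, toBlocks_fromBlocks₁₁]
  simp

/-- Let `P` be the matrix with the columns `w j` (`Sum.inl j`) and `w' j` (`Sum.inr j`): `Pᵀ J P = J` as the system is
hyperbolic (entries: `h (P i) (P j)`), so `P` is symplectic.  `P⁻¹ g P = - J Pᵀ J g P` (`SymplecticGroup.coe_inv`), the entry
`(Sum.inl i, Sum.inl j)` is the entry `(Sum.inr i, Sum.inl j)` of `Pᵀ J g P`, that is `h (w' i) (g (w j))`. -/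
theorem frameS (g : symplecticGroup (Fin n) K) {a : Matrix (Fin n) (Fin n) K}
    (h : (hS K n).Sys ⊤ (Matrix.mulVecLin (g : Matrix (Fin n ⊕ Fin n) (Fin n ⊕ Fin n) K)) a) :
    ∃ P : symplecticGroup (Fin n) K,
      ((P⁻¹ * g * P : symplecticGroup (Fin n) K) : Matrix (Fin n ⊕ Fin n) (Fin n ⊕ Fin n) K).toBlocks₁₁ = a := by
  obtain ⟨w, w', hw, ha⟩ := h
  obtain ⟨P, hPl, hPr⟩ : ∃ P : Matrix (Fin n ⊕ Fin n) (Fin n ⊕ Fin n) K,
      (∀ j, (fun x => P x (Sum.inl j)) = w j) ∧ ∀ j, (fun x => P x (Sum.inr j)) = w' j :=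
    ⟨Matrix.of fun x j => Sum.elim (fun j => w j x) (fun j => w' j x) j, fun j => rfl, fun j => rfl⟩
  have hPJ : Pᵀ * (J (Fin n) K * P) = J (Fin n) K := by
    ext i j
    rw [Frm_entry]
    rcases i with i | i <;> rcases j with j | j
    · rw [hPl, hPl, ← hS_apply, hw.iso, J, fromBlocks_apply₁₁]
      rfl
    · rw [hPl, hPr, ← hS_apply, (hS K n).symm (w' j) (w i), hw.dual, J, fromBlocks_apply₁₂,
        Matrix.neg_apply, Matrix.one_apply]
      by_cases h : i = j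
      · rw [if_pos h, if_pos h.symm]
      · rw [if_neg h, if_neg (fun h' => h h'.symm)]
    · rw [hPr, hPl, ← hS_apply, hw.dual, J, fromBlocks_apply₂₁, Matrix.one_apply]
    · rw [hPr, hPr, ← hS_apply, hw.iso', J, fromBlocks_apply₂₂]
      rfl
  have hPm : P ∈ symplecticGroup (Fin n) K := by
    rw [SymplecticGroup.mem_iff', Matrix.mul_assoc]
    exact hPJ
  refine ⟨⟨P, hPm⟩, ?_⟩
  rw [Submonoid.coe_mul, Submonoid.coe_mul, SymplecticGroup.coe_inv]
  show ((-J (Fin n) K) * Pᵀ * J (Fin n) K * (g : Matrix (Fin n ⊕ Fin n) (Fin n ⊕ Fin n) K) *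
    P).toBlocks₁₁ = a
  rw [Matrix.mul_assoc, Matrix.mul_assoc, Matrix.mul_assoc, Frm_J11]
  ext i j
  have h1 : (Pᵀ * (J (Fin n) K * ((g : Matrix (Fin n ⊕ Fin n) (Fin n ⊕ Fin n) K) * P)))
      (Sum.inr i) (Sum.inl j) = a i j := by
    rw [← Matrix.mul_assoc (J (Fin n) K), Frm_entry, hPr, hPl, ← mulVec_mulVec, ← ha i j,
      hS_apply, mulVecLin_apply]
  exact h1

end ThS
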