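import Pool.Agent.ThS.StepI

/-! # Module Gen: the choice of the first vector -/

namespace ThS
open Module

variable {K V : Type*} [Field K] [AddCommGroup V] [Module K V] (q : AF K V)
variable {U : Submodule K V} {G : V →ₗ[K] V}

private theorem Gen_pos {W : Submodule K V} (hf : 0 < finrank K W) : ∃ x ∈ W, x ≠ 0 := by
  by_contra hcon
  push Not at hcon
  have h1 : W = ⊥ := by
    rw [eq_bot_iff]
    exact fun x hx => hcon x hx
  rw [h1, finrank_bot] at hf
  omega

/-- moving `w` by a vector `u` with `G u = ε u` -/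
private theorem Gen_move {w u : V} {ε : K} (hu : u ∈ q.perp2 U w (G w)) (hGu : G u = ε • u) :
    G (w + u) = G w + ε • u ∧ q.h (w + u) (G (w + u)) = q.h w (G w) := by
  obtain ⟨hu1, hu2, hu3⟩ := q.mem_perp2.1 hu
  have h1 : G (w + u) = G w + ε • u := by rw [map_add, hGu]
  refine ⟨h1, ?_⟩
  rw [h1, map_add, map_smul, q.add_left, q.add_left, hu2, q.alt, q.swap_zero hu3]
  simp

/-- Let `z = h w (G w) ≠ 0`, `P = span (w, G w)`, `U1 = perp2 U w (G w)` (dimension `≥ 4`), and let `g1` be the scalar `ε` on `U1`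
(otherwise we are done).  `ε ^ 2 = 1` (`iso_g1`, `perp2_ND`).  So `G x = ε x + β x • G w` for `x ∈ U1`, and there is `b ∈ U1` with
`β x = h b x` on `U1` (`riesz`).
`G (G w) = p w + r G w + u0`, `u0 ∈ U1` (`perp2_dec`); `z = h (G w) (G (G w)) = -p z`, so `p = -1`.

Case A: `b ≠ 0`.  Let `b' ∈ U1` with `h b' b = 1`, and `u ≠ 0` in `perp2 U1 b b'` (dimension `≥ 2`).  Take `w2 = w + u`;
`G w2 = G w + ε u` (`h b u = 0`), `h w2 (G w2) = z`.  Suppose `g1 G w2` is a scalar `c` on `perp2 U w2 (G w2)`.  `b` and `b'` are in this space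
(`h u b = h u b' = 0`).  `G b = ε b`, `h w2 (G b) = 0`, so `g1 b = ε b` and `c = ε`.
`G b' = ε b' + h b b' G w = ε b' - G w`, so `ε b' = g1 b' = ε b' - G w - t (G w + ε u)`; apply `h w`: `- z - t z = 0`, `t = -1`, then
`ε u = 0`, a contradiction.

Case B: `b = 0`, so `G x = ε x` on `U1`.  Then `u0 = 0`: for `x ∈ U1`: `0 = h x (G w) = h (G x) (G (G w)) = ε h x u0`, and `U1` is
nondegenerate.  So `G (G w) = - w + r G w`.
If `r = 2 ε`: put `u = G w - ε w`: `(G - ε) w = u`, `(G - ε) (G w) = - w + ε G w = ε u`, `(G - ε) x = 0` on `U1`,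
`h u w = -z`, `h u (G w) = - ε z`: `G x = ε x - z⁻¹ h u x u` for all `x ∈ U` (`perp2_dec`), which contradicts `ht`.
If `r ≠ 2 ε`: take any `u ≠ 0` in `U1`, `w2 = w + u`, `G w2 = G w + ε u`, `h w2 (G w2) = z`.  Suppose `g1 G w2` is a scalar `c` on
`perp2 U w2 (G w2)`.  `u` is in this space, `g1 u = ε u`, so `c = ε`.  Let `v ∈ U1` with `h u v = z` (a multiple of a
partner) and `y = ε w - G w + v`: `h w2 y = - z + z = 0`, `h (G w2) y = - ε z + ε z = 0`.
`G y - ε y = (2 ε - r) G w` and this is `t (G w + ε u)`; apply `h w`: `t = 2 ε - r`, so `t ε u = 0`, a contradiction. -/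
theorem gen [FiniteDimensional K V] {n : ℕ} (hU : q.ND U) (hf : finrank K U = 2 * (n + 3))
    (hG : q.Iso U G) (ht : ∀ ε : K, ε ^ 2 = 1 → ¬ q.Trv U G ε) (hw : ∃ w ∈ U, q.h w (G w) ≠ 0) :
    ∃ w ∈ U, q.h w (G w) ≠ 0 ∧ ¬ Scal (q.perp2 U w (G w)) (q.g1 G w) := by
  obtain ⟨w, hwU, hz⟩ := hw
  by_contra hall
  push Not at hall
  obtain ⟨ε, hε⟩ := hall w hwU hz
  have hGwU : G w ∈ U := hG.1 w hwU
  have hND := perp2_ND q hU hwU hGwU hz
  have hfr := perp2_finrank q hwU hGwU hz
  obtain ⟨z, hzdef⟩ : ∃ z, z = q.h w (G w) := ⟨_, rfl⟩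
  have hz0 : z ≠ 0 := by rw [hzdef]; exact hz
  have hGww : q.h (G w) w = -z := by rw [q.symm, hzdef]
  -- `ε ^ 2 = 1`
  have hε2 : ε ^ 2 = 1 := by
    obtain ⟨x, hx, hx0⟩ := Gen_pos (K := K) (W := q.perp2 U w (G w)) (by omega)
    obtain ⟨x', hx', h1⟩ := partner q hND hx hx0
    have h2 := (iso_g1 q hG hwU hz).2 x' hx' x hx
    rw [hε x hx, hε x' hx', q.smul_left, map_smul, h1, smul_eq_mul] at h2
    linear_combination h2
  have hε0 : ε ≠ 0 := by
    intro h
    rw [h] at hε2
    norm_num at hε2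
  -- the functional
  have hGx : ∀ x ∈ q.perp2 U w (G w), G x = ε • x + (z⁻¹ * q.h w (G x)) • G w := by
    intro x hx
    have h1 := hε x hx
    rw [q.g1_apply, ← hzdef] at h1
    rw [← h1, mul_comm z⁻¹]
    abel
  obtain ⟨b, hb, hbx⟩ := riesz q hND (z⁻¹ • (q.h w).comp G)
  have hGx2 : ∀ x ∈ q.perp2 U w (G w), G x = ε • x + q.h b x • G w := by
    intro x hx
    rw [← hbx x hx]
    exact hGx x hx
  by_cases hb0 : b = 0
  · -- case B
    have hGx3 : ∀ x ∈ q.perp2 U w (G w), G x = ε • x := by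
      intro x hx
      rw [hGx2 x hx, hb0, q.zero_left, zero_smul, add_zero]
    obtain ⟨s, t, hst⟩ := perp2_dec q hwU hGwU hz (G (G w)) (hG.1 _ hGwU)
    obtain ⟨u0, hu0⟩ : ∃ u0, u0 = G (G w) - s • w - t • G w := ⟨_, rfl⟩
    rw [← hu0] at hst
    have hGG : G (G w) = s • w + t • G w + u0 := by rw [hu0]; abel
    obtain ⟨hu1, hu2, hu3⟩ := q.mem_perp2.1 hst
    have hs : s = -1 := by
      have h1 := hG.2 w hwU (G w) hGwU
      rw [hGG, map_add, map_add, map_smul, map_smul, q.alt, hu3, hGww, ← hzdef] at h1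
      have h2 : z * (s + 1) = 0 := by
        simp only [smul_eq_mul] at h1
        linear_combination -h1
      linear_combination (mul_eq_zero.1 h2).resolve_left hz0
    have hu00 : u0 = 0 := by
      refine hND u0 hst fun x hx => ?_
      obtain ⟨hx1, hx2, hx3⟩ := q.mem_perp2.1 hx
      have h1 := hG.2 x hx1 (G w) hGwU
      rw [hGx3 x hx, hGG, q.smul_left, map_add, map_add, map_smul, map_smul, q.swap_zero hx2,
        q.swap_zero hx3, smul_zero, smul_zero, zero_add, zero_add] at h1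
      exact q.swap_zero ((mul_eq_zero.1 h1).resolve_left hε0)
    rw [hs, hu00, add_zero] at hGG
    by_cases ht2 : t = 2 * ε
    · -- a transvection
      refine ht ε hε2 ⟨G w - ε • w, U.sub_mem hGwU (U.smul_mem _ hwU), -z⁻¹, fun x hx => ?_⟩
      obtain ⟨s1, t1, hy⟩ := perp2_dec q hwU hGwU hz x hx
      obtain ⟨y, hydef⟩ : ∃ y, y = x - s1 • w - t1 • G w := ⟨_, rfl⟩
      rw [← hydef] at hy
      have hxy : x = s1 • w + t1 • G w + y := by rw [hydef]; abel
      obtain ⟨hy1, hy2, hy3⟩ := q.mem_perp2.1 hy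
      have e1 : q.h (G w - ε • w) x = -(s1 * z) - t1 * ε * z := by
        rw [hxy, q.sub_left, q.smul_left]
        simp only [map_add, map_smul, smul_eq_mul, hGww, q.alt, hy2, hy3, ← hzdef]
        ring
      have e2 : -z⁻¹ * q.h (G w - ε • w) x = s1 + t1 * ε := by
        rw [e1]
        field_simp
        ring
      rw [e2]
      nth_rw 1 [hxy]
      rw [map_add, map_add, map_smul, map_smul, hGx3 y hy, hGG, ht2]
      have e3 : t1 • ((-1 : K) • w + (2 * ε) • G w) =
          t1 • (-(ε ^ 2) • w + (2 * ε) • G w) := by rw [hε2]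
      rw [e3, hxy]
      module
    · obtain ⟨u, hu, hu0'⟩ := Gen_pos (K := K) (W := q.perp2 U w (G w)) (by omega)
      obtain ⟨hu1', hu2', hu3'⟩ := q.mem_perp2.1 hu
      have hGu := hGx3 u hu
      obtain ⟨m1, m2⟩ := Gen_move q hu hGu
      have hw2U : w + u ∈ U := U.add_mem hwU hu1'
      obtain ⟨c, hc⟩ := hall (w + u) hw2U (by rw [m2]; exact hz)
      have hmem : ∀ y ∈ U, q.h w y + q.h u y = 0 → q.h (G w) y + ε * q.h u y = 0 →
          y ∈ q.perp2 U (w + u) (G (w + u)) := by
        intro y hy h1 h2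
        refine q.mem_perp2.2 ⟨hy, ?_, ?_⟩
        · rw [q.add_left]
          exact h1
        · rw [m1, q.add_left, q.smul_left]
          exact h2
      have hcε : c = ε := by
        have h1 := hc u (hmem u hu1' (by rw [hu2', q.alt, add_zero])
          (by rw [hu3', q.alt, mul_zero, add_zero]))
        rw [q.g1_apply, hGu, map_smul, q.add_left, hu2', q.alt, add_zero, smul_zero, zero_mul,
          zero_smul, sub_zero] at h1
        have h2 : (c - ε) • u = 0 := by rw [sub_smul, h1, sub_self]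
        exact sub_eq_zero.1 ((smul_eq_zero.1 h2).resolve_right hu0')
      obtain ⟨u', hu', huu⟩ := partner q hND hu hu0'
      have hv : (-z) • u' ∈ q.perp2 U w (G w) := Submodule.smul_mem _ _ hu'
      obtain ⟨v, hvdef⟩ : ∃ v, v = (-z) • u' := ⟨_, rfl⟩
      rw [← hvdef] at hv
      have huv : q.h u v = z := by
        rw [hvdef, map_smul, q.symm u' u, huu, smul_eq_mul]
        ring
      obtain ⟨hv1, hv2, hv3⟩ := q.mem_perp2.1 hv
      have hu4 : q.h u w = 0 := q.swap_zero hu2'
      have hu5 : q.h u (G w) = 0 := q.swap_zero hu3'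
      have hyU : ε • w - G w + v ∈ U := U.add_mem (U.sub_mem (U.smul_mem _ hwU) hGwU) hv1
      have h1 := hc (ε • w - G w + v) (hmem _ hyU (by
          simp only [map_add, map_sub, map_smul, smul_eq_mul, q.alt, ← hzdef, hv2, hu4, hu5, huv]
          ring) (by
          simp only [map_add, map_sub, map_smul, smul_eq_mul, q.alt, hGww, hv3, hu4, hu5, huv]
          ring))
      obtain ⟨t', ht'⟩ : ∃ t', t' = q.h (w + u) (G (ε • w - G w + v)) *
        (q.h (w + u) (G (w + u)))⁻¹ := ⟨_, rfl⟩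
      rw [q.g1_apply, ← ht', hcε, m1, map_add, map_sub, map_smul, hGG, hGx3 v hv] at h1
      have h2 : (2 * ε - t) • G w = t' • (G w + ε • u) := by
        have e3 : ε • (ε • w - G w + v) = w - ε • G w + ε • v := by
          have e4 : ε • (ε • w) = w := by rw [smul_smul, ← sq, hε2, one_smul]
          rw [smul_add, smul_sub, e4]
        rw [e3] at h1
        have e5 := sub_eq_iff_eq_add.1 h1
        have e6 : t' • (G w + ε • u) =
            (ε • G w - ((-1 : K) • w + t • G w) + ε • v) - (w - ε • G w + ε • v) := by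
          rw [e5]
          abel
        rw [e6]
        module
      have h3 : t' = 2 * ε - t := by
        have h4 := congrArg (q.h w) h2
        rw [map_smul, map_smul, map_add, map_smul, hu2', smul_zero, add_zero, ← hzdef,
          smul_eq_mul, smul_eq_mul] at h4
        exact (mul_right_cancel₀ hz0 h4).symm
      rw [h3, smul_add, left_eq_add, smul_smul] at h2
      have h5 : (2 * ε - t) * ε ≠ 0 := mul_ne_zero (fun h => ht2 (by linear_combination -h)) hε0
      exact hu0' ((smul_eq_zero.1 h2).resolve_left h5)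
  · -- case A
    obtain ⟨b', hb', hbb⟩ := partner q hND hb hb0
    have hbb' : q.h b b' = -1 := by rw [q.symm b' b, hbb]
    have hbb0 : q.h b b' ≠ 0 := by
      rw [hbb']
      exact neg_ne_zero.2 one_ne_zero
    have hfr2 := perp2_finrank q hb hb' hbb0
    obtain ⟨u, hu, hu0⟩ := Gen_pos (K := K) (W := q.perp2 (q.perp2 U w (G w)) b b') (by omega)
    obtain ⟨huU, hbu, hb'u⟩ := q.mem_perp2.1 hu
    obtain ⟨hu1, hu2, hu3⟩ := q.mem_perp2.1 huU
    obtain ⟨hb1, hb2, hb3⟩ := q.mem_perp2.1 hb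
    obtain ⟨hb1', hb2', hb3'⟩ := q.mem_perp2.1 hb'
    have hGu : G u = ε • u := by rw [hGx2 u huU, hbu, zero_smul, add_zero]
    obtain ⟨m1, m2⟩ := Gen_move q huU hGu
    have hw2U : w + u ∈ U := U.add_mem hwU hu1
    obtain ⟨c, hc⟩ := hall (w + u) hw2U (by rw [m2]; exact hz)
    have hmem : ∀ y ∈ U, q.h w y = 0 → q.h (G w) y = 0 → q.h u y = 0 →
        y ∈ q.perp2 U (w + u) (G (w + u)) := by
      intro y hy h1 h2 h3
      refine q.mem_perp2.2 ⟨hy, ?_, ?_⟩
      · rw [q.add_left, h1, h3, add_zero]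
      · rw [m1, q.add_left, q.smul_left, h2, h3, mul_zero, add_zero]
    have hGb : G b = ε • b := by rw [hGx2 b hb, q.alt, zero_smul, add_zero]
    have hub : q.h u b = 0 := q.swap_zero hbu
    have hub' : q.h u b' = 0 := q.swap_zero hb'u
    have hcε : c = ε := by
      have h1 := hc b (hmem b hb1 hb2 hb3 hub)
      rw [q.g1_apply, hGb, map_smul, q.add_left, hb2, hub, add_zero, smul_zero, zero_mul,
        zero_smul, sub_zero] at h1
      have h2 : (c - ε) • b = 0 := by rw [sub_smul, h1, sub_self]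
      exact sub_eq_zero.1 ((smul_eq_zero.1 h2).resolve_right hb0)
    have hGb' : G b' = ε • b' - G w := by
      rw [hGx2 b' hb', hbb', neg_smul, one_smul]
      abel
    have h1 := hc b' (hmem b' hb1' hb2' hb3' hub')
    obtain ⟨t, ht'⟩ : ∃ t, t = q.h (w + u) (G b') * (q.h (w + u) (G (w + u)))⁻¹ := ⟨_, rfl⟩
    rw [q.g1_apply, ← ht', hcε, m1, hGb'] at h1
    have h2 : G w + t • (G w + ε • u) = 0 := by
      have e5 := sub_eq_iff_eq_add.1 h1
      have e6 : G w + t • (G w + ε • u) = ε • b' - (ε • b' - G w) + t • (G w + ε • u) := by abel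
      rw [e6, e5]
      abel
    have h3 : t = -1 := by
      have h4 := congrArg (q.h w) h2
      rw [map_add, map_smul, map_add, map_smul, hu2, smul_zero, add_zero, ← hzdef,
        smul_eq_mul, map_zero] at h4
      have h5 : z * (t + 1) = 0 := by linear_combination h4
      linear_combination (mul_eq_zero.1 h5).resolve_left hz0
    rw [h3, neg_smul, one_smul, neg_add, add_neg_cancel_left, neg_eq_zero] at h2
    exact hu0 ((smul_eq_zero.1 h2).resolve_left hε0)

end ThS
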