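import Pool.Agent.ThS.Defs
import Pool.Agent.ThQ.GDefs

/-!
# Module Grp: the symplectic group, Levi subgroup, unipotent subgroups

The group is `Matrix.symplecticGroup (Fin n) K`; see `SymplecticGroup.fromBlocks_mem_iff`,
`SymplecticGroup.mem_iff'`, `SymplecticGroup.coe_inv` in Mathlib.
-/

namespace ThS
open Matrix Module

variable {K : Type*} [Field K] {n : ℕ}

/-- the Levi subgroup -/
def mS (K : Type*) [Field K] (n : ℕ) : (Matrix (Fin n) (Fin n) K)ˣ →* symplecticGroup (Fin n) K where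
  toFun a := ⟨fromBlocks (a : Matrix (Fin n) (Fin n) K) 0 0
    ((a⁻¹ : (Matrix (Fin n) (Fin n) K)ˣ) : Matrix (Fin n) (Fin n) K)ᵀ, by
      rw [SymplecticGroup.fromBlocks_mem_iff]
      refine ⟨by simp, by simp, ?_⟩
      rw [← transpose_mul, Units.inv_mul]
      simp⟩
  map_one' := by
    apply Subtype.ext
    show fromBlocks ((1 : (Matrix (Fin n) (Fin n) K)ˣ) : Matrix (Fin n) (Fin n) K) 0 0
      (((1 : (Matrix (Fin n) (Fin n) K)ˣ)⁻¹ : (Matrix (Fin n) (Fin n) K)ˣ) : Matrix (Fin n) (Fin n) K)ᵀ = 1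
    rw [inv_one, Units.val_one, transpose_one, fromBlocks_one]
  map_mul' a b := by
    apply Subtype.ext
    show fromBlocks ((a * b : (Matrix (Fin n) (Fin n) K)ˣ) : Matrix (Fin n) (Fin n) K) 0 0
      (((a * b)⁻¹ : (Matrix (Fin n) (Fin n) K)ˣ) : Matrix (Fin n) (Fin n) K)ᵀ =
        fromBlocks (a : Matrix (Fin n) (Fin n) K) 0 0
          ((a⁻¹ : (Matrix (Fin n) (Fin n) K)ˣ) : Matrix (Fin n) (Fin n) K)ᵀ *
        fromBlocks (b : Matrix (Fin n) (Fin n) K) 0 0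
          ((b⁻¹ : (Matrix (Fin n) (Fin n) K)ˣ) : Matrix (Fin n) (Fin n) K)ᵀ
    rw [fromBlocks_multiply, _root_.mul_inv_rev, Units.val_mul, Units.val_mul, transpose_mul]
    simp

theorem mS_coe (a : (Matrix (Fin n) (Fin n) K)ˣ) :
    ((mS K n a : symplecticGroup (Fin n) K) : Matrix (Fin n ⊕ Fin n) (Fin n ⊕ Fin n) K) =
      fromBlocks (a : Matrix (Fin n) (Fin n) K) 0 0
        ((a⁻¹ : (Matrix (Fin n) (Fin n) K)ˣ) : Matrix (Fin n) (Fin n) K)ᵀ := rfl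

/-- the lower unipotent elements -/
def lo (c : Matrix (Fin n) (Fin n) K) (hc : cᵀ = c) : symplecticGroup (Fin n) K :=
  ⟨fromBlocks 1 0 c 1, by
    rw [SymplecticGroup.fromBlocks_mem_iff]
    refine ⟨?_, by simp, by simp⟩
    rw [hc]
    simp⟩

theorem lo_coe (c : Matrix (Fin n) (Fin n) K) (hc : cᵀ = c) :
    ((lo c hc : symplecticGroup (Fin n) K) : Matrix (Fin n ⊕ Fin n) (Fin n ⊕ Fin n) K) =
      fromBlocks 1 0 c 1 := rfl

/-- the upper unipotent elements -/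
def up (b : Matrix (Fin n) (Fin n) K) (hb : bᵀ = b) : symplecticGroup (Fin n) K :=
  ⟨fromBlocks 1 b 0 1, by
    rw [SymplecticGroup.fromBlocks_mem_iff]
    refine ⟨by simp, ?_, by simp⟩
    rw [hb]
    simp⟩

theorem up_coe (b : Matrix (Fin n) (Fin n) K) (hb : bᵀ = b) :
    ((up b hb : symplecticGroup (Fin n) K) : Matrix (Fin n ⊕ Fin n) (Fin n ⊕ Fin n) K) =
      fromBlocks 1 b 0 1 := rfl

/-- `g = fromBlocks a B C D` with `a` invertible: `c = C a⁻¹`, `b = a⁻¹ B` are symmetric, `D = (a⁻¹)ᵀ + C a⁻¹ B`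
(`SymplecticGroup.fromBlocks_mem_iff`: `aᵀ C = Cᵀ a`, `aᵀ D - Cᵀ B = 1`, `Bᵀ D = Dᵀ B`; for the symmetry of `b`
use `aᵀ (D - C a⁻¹ B) = 1`, or apply the first statement to the transpose of `g`). -/
theorem lduS (g : symplecticGroup (Fin n) K) {a : (Matrix (Fin n) (Fin n) K)ˣ}
    (ha : (g : Matrix (Fin n ⊕ Fin n) (Fin n ⊕ Fin n) K).toBlocks₁₁ = a) :
    ∃ (c : Matrix (Fin n) (Fin n) K) (hc : cᵀ = c) (b : Matrix (Fin n) (Fin n) K) (hb : bᵀ = b),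
      g = lo c hc * mS K n a * up b hb := by
  obtain ⟨B, hB⟩ : ∃ B, B = (g : Matrix (Fin n ⊕ Fin n) (Fin n ⊕ Fin n) K).toBlocks₁₂ := ⟨_, rfl⟩
  obtain ⟨C, hC⟩ : ∃ C, C = (g : Matrix (Fin n ⊕ Fin n) (Fin n ⊕ Fin n) K).toBlocks₂₁ := ⟨_, rfl⟩
  obtain ⟨D, hD⟩ : ∃ D, D = (g : Matrix (Fin n ⊕ Fin n) (Fin n ⊕ Fin n) K).toBlocks₂₂ := ⟨_, rfl⟩
  have hg : (g : Matrix (Fin n ⊕ Fin n) (Fin n ⊕ Fin n) K) =
      fromBlocks (a : Matrix (Fin n) (Fin n) K) B C D := by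
    rw [← ha, hB, hC, hD, fromBlocks_toBlocks]
  have hmem := g.2
  rw [hg] at hmem
  obtain ⟨h1, h2, h3⟩ := SymplecticGroup.fromBlocks_mem_iff.1 hmem
  have hmem' := SymplecticGroup.transpose_mem hmem
  rw [fromBlocks_transpose] at hmem'
  obtain ⟨k1, -, -⟩ := SymplecticGroup.fromBlocks_mem_iff.1 hmem'
  rw [transpose_transpose, transpose_transpose] at k1
  obtain ⟨ai, hai⟩ : ∃ ai : Matrix (Fin n) (Fin n) K,
      ai = ((a⁻¹ : (Matrix (Fin n) (Fin n) K)ˣ) : Matrix (Fin n) (Fin n) K) := ⟨_, rfl⟩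
  have m1 : (a : Matrix (Fin n) (Fin n) K) * ai = 1 := by rw [hai, Units.mul_inv]
  have m2 : ai * (a : Matrix (Fin n) (Fin n) K) = 1 := by rw [hai, Units.inv_mul]
  have m1' : aiᵀ * (a : Matrix (Fin n) (Fin n) K)ᵀ = 1 := by
    rw [← transpose_mul, m1, transpose_one]
  have m2' : (a : Matrix (Fin n) (Fin n) K)ᵀ * aiᵀ = 1 := by
    rw [← transpose_mul, m2, transpose_one]
  have hc : (C * ai)ᵀ = C * ai := by
    rw [transpose_mul]
    calc aiᵀ * Cᵀ = aiᵀ * (Cᵀ * (a : Matrix (Fin n) (Fin n) K)) * ai := by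
          rw [Matrix.mul_assoc aiᵀ, Matrix.mul_assoc Cᵀ, m1, Matrix.mul_one]
      _ = aiᵀ * ((a : Matrix (Fin n) (Fin n) K)ᵀ * C) * ai := by rw [h1]
      _ = C * ai := by rw [← Matrix.mul_assoc aiᵀ, m1', Matrix.one_mul]
  have hb : (ai * B)ᵀ = ai * B := by
    rw [transpose_mul]
    calc Bᵀ * aiᵀ = ai * ((a : Matrix (Fin n) (Fin n) K) * Bᵀ) * aiᵀ := by
          rw [← Matrix.mul_assoc ai, m2, Matrix.one_mul]
      _ = ai * (B * (a : Matrix (Fin n) (Fin n) K)ᵀ) * aiᵀ := by rw [k1]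
      _ = ai * B := by rw [← Matrix.mul_assoc ai, Matrix.mul_assoc (ai * B), m2', Matrix.mul_one]
  have hDD : D = aiᵀ + C * (ai * B) := by
    have h4 : (a : Matrix (Fin n) (Fin n) K)ᵀ * D = 1 + Cᵀ * B := by
      rw [← h3]
      abel
    calc D = aiᵀ * ((a : Matrix (Fin n) (Fin n) K)ᵀ * D) := by
          rw [← Matrix.mul_assoc, m1', Matrix.one_mul]
      _ = aiᵀ + aiᵀ * Cᵀ * B := by rw [h4, Matrix.mul_add, Matrix.mul_one, Matrix.mul_assoc]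
      _ = aiᵀ + C * (ai * B) := by rw [← transpose_mul, hc, Matrix.mul_assoc]
  refine ⟨C * ai, hc, ai * B, hb, ?_⟩
  apply Subtype.ext
  rw [Submonoid.coe_mul, Submonoid.coe_mul, lo_coe, mS_coe, up_coe, hg, fromBlocks_multiply,
    fromBlocks_multiply, ← hai]
  simp only [Matrix.one_mul, Matrix.zero_mul, Matrix.mul_zero, Matrix.mul_one, add_zero, zero_add]
  have e1 : (a : Matrix (Fin n) (Fin n) K) * (ai * B) = B := by
    rw [← Matrix.mul_assoc, m1, Matrix.one_mul]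
  have e2 : C * ai * (a : Matrix (Fin n) (Fin n) K) = C := by
    rw [Matrix.mul_assoc, m2, Matrix.mul_one]
  rw [e1, e2, hDD, add_comm]

/-- direct computation -/
theorem mS_lo (a : (Matrix (Fin n) (Fin n) K)ˣ) (c : Matrix (Fin n) (Fin n) K) (hc : cᵀ = c) :
    ∃ (c' : Matrix (Fin n) (Fin n) K) (hc' : c'ᵀ = c'), mS K n a * lo c hc * (mS K n a)⁻¹ = lo c' hc' := by
  obtain ⟨ai, hai⟩ : ∃ ai : Matrix (Fin n) (Fin n) K,
      ai = ((a⁻¹ : (Matrix (Fin n) (Fin n) K)ˣ) : Matrix (Fin n) (Fin n) K) := ⟨_, rfl⟩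
  have m1 : (a : Matrix (Fin n) (Fin n) K) * ai = 1 := by rw [hai, Units.mul_inv]
  have m1' : aiᵀ * (a : Matrix (Fin n) (Fin n) K)ᵀ = 1 := by
    rw [← transpose_mul, m1, transpose_one]
  refine ⟨aiᵀ * c * ai, ?_, ?_⟩
  · rw [transpose_mul, transpose_mul, transpose_transpose, hc, Matrix.mul_assoc]
  · rw [← map_inv]
    apply Subtype.ext
    rw [Submonoid.coe_mul, Submonoid.coe_mul, lo_coe, mS_coe, mS_coe, lo_coe, fromBlocks_multiply,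
      fromBlocks_multiply, ← hai, inv_inv]
    simp only [Matrix.one_mul, Matrix.zero_mul, Matrix.mul_zero, Matrix.mul_one, add_zero, zero_add,
      m1, m1']

/-- direct computation -/
theorem mS_up (a : (Matrix (Fin n) (Fin n) K)ˣ) (b : Matrix (Fin n) (Fin n) K) (hb : bᵀ = b) :
    ∃ (b' : Matrix (Fin n) (Fin n) K) (hb' : b'ᵀ = b'), mS K n a * up b hb * (mS K n a)⁻¹ = up b' hb' := by
  obtain ⟨ai, hai⟩ : ∃ ai : Matrix (Fin n) (Fin n) K,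
      ai = ((a⁻¹ : (Matrix (Fin n) (Fin n) K)ˣ) : Matrix (Fin n) (Fin n) K) := ⟨_, rfl⟩
  have m1 : (a : Matrix (Fin n) (Fin n) K) * ai = 1 := by rw [hai, Units.mul_inv]
  have m1' : aiᵀ * (a : Matrix (Fin n) (Fin n) K)ᵀ = 1 := by
    rw [← transpose_mul, m1, transpose_one]
  refine ⟨(a : Matrix (Fin n) (Fin n) K) * b * (a : Matrix (Fin n) (Fin n) K)ᵀ, ?_, ?_⟩
  · rw [transpose_mul, transpose_mul, transpose_transpose, hb, Matrix.mul_assoc]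
  · rw [← map_inv]
    apply Subtype.ext
    rw [Submonoid.coe_mul, Submonoid.coe_mul, up_coe, mS_coe, mS_coe, up_coe, fromBlocks_multiply,
      fromBlocks_multiply, ← hai, inv_inv]
    simp only [Matrix.one_mul, Matrix.zero_mul, Matrix.mul_zero, Matrix.mul_one, add_zero, zero_add,
      m1, m1']

/-- `x = mS B`.  `lo c x = lo u x (lo u)⁻¹` means `c B = u B - (B⁻¹)ᵀ u`, `c = u - (B⁻¹)ᵀ u B⁻¹`.  The linear map
`u ↦ u - (B⁻¹)ᵀ u B⁻¹` of the (finite) space of symmetric matrices is injective: `Bᵀ u B = u` implies `u = 0` by `hs`. -/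
theorem conj_lowS [Finite K] {B : (Matrix (Fin n) (Fin n) K)ˣ}
    (hs : ∀ Z : Matrix (Fin n) (Fin n) K,
      (B : Matrix (Fin n) (Fin n) K)ᵀ * Z * (B : Matrix (Fin n) (Fin n) K) = Z → Z = 0)
    (c : Matrix (Fin n) (Fin n) K) (hc : cᵀ = c) :
    ∃ u : symplecticGroup (Fin n) K, lo c hc * mS K n B = u * mS K n B * u⁻¹ := by
  obtain ⟨Bi, hBi⟩ : ∃ Bi : Matrix (Fin n) (Fin n) K,
      Bi = ((B⁻¹ : (Matrix (Fin n) (Fin n) K)ˣ) : Matrix (Fin n) (Fin n) K) := ⟨_, rfl⟩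
  have m1 : (B : Matrix (Fin n) (Fin n) K) * Bi = 1 := by rw [hBi, Units.mul_inv]
  have m2 : Bi * (B : Matrix (Fin n) (Fin n) K) = 1 := by rw [hBi, Units.inv_mul]
  have m2' : (B : Matrix (Fin n) (Fin n) K)ᵀ * Biᵀ = 1 := by
    rw [← transpose_mul, m2, transpose_one]
  have hfin : Finite (Matrix (Fin n) (Fin n) K) := Pi.finite
  let φ : {v : Matrix (Fin n) (Fin n) K // vᵀ = v} → {v : Matrix (Fin n) (Fin n) K // vᵀ = v} :=
    fun v => ⟨v.1 - Biᵀ * v.1 * Bi, by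
      rw [transpose_sub, transpose_mul, transpose_mul, transpose_transpose, v.2, Matrix.mul_assoc]⟩
  have hφ : Function.Injective φ := by
    intro v v' h
    have h1 : v.1 - Biᵀ * v.1 * Bi = v'.1 - Biᵀ * v'.1 * Bi := congrArg Subtype.val h
    have h2 : v.1 - v'.1 = Biᵀ * (v.1 - v'.1) * Bi := by
      rw [Matrix.mul_sub, Matrix.sub_mul]
      rw [sub_eq_sub_iff_add_eq_add] at h1 ⊢
      rw [add_comm v'.1] at h1
      rw [h1]
    have h3 : (B : Matrix (Fin n) (Fin n) K)ᵀ * (v.1 - v'.1) * (B : Matrix (Fin n) (Fin n) K) =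
        v.1 - v'.1 := by
      nth_rw 1 [h2]
      rw [Matrix.mul_assoc, Matrix.mul_assoc, m2, Matrix.mul_one, ← Matrix.mul_assoc, m2',
        Matrix.one_mul]
    exact Subtype.ext (sub_eq_zero.1 (hs _ h3))
  have hsurj : Function.Surjective φ := Finite.injective_iff_surjective.1 hφ
  obtain ⟨⟨v, hv⟩, hvc⟩ := hsurj ⟨c, hc⟩
  have hvc' : v - Biᵀ * v * Bi = c := congrArg Subtype.val hvc
  refine ⟨lo v hv, ?_⟩
  rw [eq_mul_inv_iff_mul_eq]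
  apply Subtype.ext
  rw [Submonoid.coe_mul, Submonoid.coe_mul, Submonoid.coe_mul, lo_coe, lo_coe, mS_coe,
    fromBlocks_multiply, fromBlocks_multiply, fromBlocks_multiply, ← hBi]
  simp only [Matrix.one_mul, Matrix.zero_mul, Matrix.mul_zero, Matrix.mul_one, add_zero, zero_add]
  have h4 : c * (B : Matrix (Fin n) (Fin n) K) + Biᵀ * v = v * (B : Matrix (Fin n) (Fin n) K) := by
    rw [← hvc', Matrix.sub_mul, Matrix.mul_assoc _ Bi, m2, Matrix.mul_one]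
    abel
  rw [h4]

/-- `t = J * mS d` where `d B = Bᵀ d`: `mS d * mS B * (mS d)⁻¹ = mS Bᵀ`, `J * mS a * J⁻¹ = mS (a⁻¹)ᵀ`; and
`J⁻¹ * up b * J = lo (-b)`. -/
theorem seed_realS {B d : (Matrix (Fin n) (Fin n) K)ˣ}
    (hd : (d : Matrix (Fin n) (Fin n) K) * B = (B : Matrix (Fin n) (Fin n) K)ᵀ * d) :
    ∃ t : symplecticGroup (Fin n) K, t * mS K n B * t⁻¹ = (mS K n B)⁻¹ ∧
      ∀ (b : Matrix (Fin n) (Fin n) K) (hb : bᵀ = b), ∃ (c : Matrix (Fin n) (Fin n) K) (hc : cᵀ = c),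
        t⁻¹ * up b hb * t = lo c hc := by
  obtain ⟨s, hsdef⟩ : ∃ s : symplecticGroup (Fin n) K, s = SymplecticGroup.symJ (Fin n) K := ⟨_, rfl⟩
  have hsJ : (s : Matrix (Fin n ⊕ Fin n) (Fin n ⊕ Fin n) K) = fromBlocks 0 (-1) 1 0 := by
    rw [hsdef]
    rfl
  have he1 : ((d * B * d⁻¹ : (Matrix (Fin n) (Fin n) K)ˣ) : Matrix (Fin n) (Fin n) K) =
      (B : Matrix (Fin n) (Fin n) K)ᵀ := by
    rw [Units.val_mul, Units.val_mul, hd, Matrix.mul_assoc, Units.mul_inv, Matrix.mul_one]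
  have he2 : (((d * B * d⁻¹)⁻¹ : (Matrix (Fin n) (Fin n) K)ˣ) : Matrix (Fin n) (Fin n) K) =
      ((B⁻¹ : (Matrix (Fin n) (Fin n) K)ˣ) : Matrix (Fin n) (Fin n) K)ᵀ := by
    apply Units.inv_eq_of_mul_eq_one_right
    rw [he1, ← Matrix.transpose_mul, Units.inv_mul, Matrix.transpose_one]
  have h1 : s * mS K n (d * B * d⁻¹) = mS K n B⁻¹ * s := by
    apply Subtype.ext
    rw [Submonoid.coe_mul, Submonoid.coe_mul, hsJ, mS_coe, mS_coe, he1, he2, fromBlocks_multiply,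
      fromBlocks_multiply, inv_inv, transpose_transpose]
    simp
  refine ⟨s * mS K n d, ?_, fun b hb => ?_⟩
  · rw [← map_inv, ← mul_inv_eq_iff_eq_mul.2 h1, map_mul, map_mul, map_inv]
    group
  · have hnb : (-b)ᵀ = -b := by rw [transpose_neg, hb]
    have h2 : up b hb * s = s * lo (-b) hnb := by
      apply Subtype.ext
      rw [Submonoid.coe_mul, Submonoid.coe_mul, hsJ, up_coe, lo_coe, fromBlocks_multiply,
        fromBlocks_multiply]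
      simp
    obtain ⟨c, hc, h3⟩ := mS_lo d⁻¹ (-b) hnb
    refine ⟨c, hc, ?_⟩
    rw [← h3, map_inv, inv_inv]
    have h4 : s⁻¹ * up b hb * s = lo (-b) hnb := by rw [mul_assoc, h2, inv_mul_cancel_left]
    rw [← h4]
    group

/-- The element `g = lo c * mS u * up b` with `S u S⁻¹ = T B T⁻¹ B⁻¹` (take `S`, `T` as units).  `u = (A B A⁻¹) (C B⁻¹ C⁻¹)` with
`A = S⁻¹ T`, `C = S⁻¹`.  With `x = mS B`: `lo c * mS (A B A⁻¹) = mS A * (lo c' * x) * (mS A)⁻¹` (`mS_lo`), which is a conjugate of `x` by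
`conj_lowS`.  `mS (C B⁻¹ C⁻¹) * up b = mS C * (x⁻¹ * up b') * (mS C)⁻¹` (`mS_up`); by `seed_realS`
`x⁻¹ * up b' = t * (x * lo c') * t⁻¹`, and `x * lo c' = (x lo c' x⁻¹) * x` is a conjugate of `x` by `mS_lo`, `conj_lowS`. -/
theorem main_blockS [Finite K] {B d : (Matrix (Fin n) (Fin n) K)ˣ}
    (hs : ∀ Z : Matrix (Fin n) (Fin n) K,
      (B : Matrix (Fin n) (Fin n) K)ᵀ * Z * (B : Matrix (Fin n) (Fin n) K) = Z → Z = 0)
    (hd : (d : Matrix (Fin n) (Fin n) K) * B = (B : Matrix (Fin n) (Fin n) K)ᵀ * d)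
    (c : Matrix (Fin n) (Fin n) K) (hc : cᵀ = c) (b : Matrix (Fin n) (Fin n) K) (hb : bᵀ = b)
    {u : (Matrix (Fin n) (Fin n) K)ˣ} {S T : Matrix (Fin n) (Fin n) K} (hS : IsUnit S.det)
    (hT : IsUnit T.det) (hST : S * (u : Matrix (Fin n) (Fin n) K) * S⁻¹ =
      T * (B : Matrix (Fin n) (Fin n) K) * T⁻¹ * (B : Matrix (Fin n) (Fin n) K)⁻¹) :
    ∃ r r' : symplecticGroup (Fin n) K,
      lo c hc * mS K n u * up b hb = r * mS K n B * r⁻¹ * (r' * mS K n B * r'⁻¹) := by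
  obtain ⟨Su, hSu⟩ := (Matrix.isUnit_iff_isUnit_det S).2 hS
  obtain ⟨Tu, hTu⟩ := (Matrix.isUnit_iff_isUnit_det T).2 hT
  have hu : Su * u * Su⁻¹ = Tu * B * Tu⁻¹ * B⁻¹ := by
    apply Units.ext
    rw [Units.val_mul, Units.val_mul, Units.val_mul, Units.val_mul, Units.val_mul,
      Matrix.coe_units_inv, Matrix.coe_units_inv, Matrix.coe_units_inv, hSu, hTu]
    exact hST
  have hu2 : u = ((Su⁻¹ * Tu) * B * (Su⁻¹ * Tu)⁻¹) * (Su⁻¹ * B⁻¹ * (Su⁻¹)⁻¹) := by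
    calc u = Su⁻¹ * (Su * u * Su⁻¹) * Su := by group
      _ = Su⁻¹ * (Tu * B * Tu⁻¹ * B⁻¹) * Su := by rw [hu]
      _ = _ := by group
  obtain ⟨x, hx⟩ : ∃ x, x = mS K n B := ⟨_, rfl⟩
  obtain ⟨α, hα⟩ : ∃ α, α = mS K n (Su⁻¹ * Tu) := ⟨_, rfl⟩
  obtain ⟨γ, hγ⟩ : ∃ γ, γ = mS K n Su⁻¹ := ⟨_, rfl⟩
  have hmu : mS K n u = (α * x * α⁻¹) * (γ * x⁻¹ * γ⁻¹) := by
    rw [hu2, hα, hγ, hx]
    simp only [map_mul, map_inv]
  rw [hmu, ← hx]
  -- the first factor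
  obtain ⟨c', hc', h1⟩ := mS_lo (Su⁻¹ * Tu)⁻¹ c hc
  rw [map_inv, ← hα, inv_inv] at h1
  obtain ⟨v, hv⟩ := conj_lowS hs c' hc'
  rw [← hx] at hv
  -- the second factor
  obtain ⟨b', hb', h2⟩ := mS_up (Su⁻¹)⁻¹ b hb
  rw [map_inv, ← hγ, inv_inv] at h2
  obtain ⟨t, ht1, ht2⟩ := seed_realS hd
  rw [← hx] at ht1
  obtain ⟨c2, hc2, h3⟩ := ht2 b' hb'
  obtain ⟨c3, hc3, h4⟩ := mS_lo B c2 hc2
  rw [← hx] at h4
  obtain ⟨v', hv'⟩ := conj_lowS hs c3 hc3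
  rw [← hx] at hv'
  refine ⟨α * v, γ * t * v', ?_⟩
  have e1 : lo c hc * (α * x * α⁻¹) = α * v * x * (α * v)⁻¹ := by
    calc lo c hc * (α * x * α⁻¹) = α * ((α⁻¹ * lo c hc * α) * x) * α⁻¹ := by group
      _ = α * (v * x * v⁻¹) * α⁻¹ := by rw [h1, hv]
      _ = _ := by group
  have e2 : (γ * x⁻¹ * γ⁻¹) * up b hb = γ * t * v' * x * (γ * t * v')⁻¹ := by
    calc (γ * x⁻¹ * γ⁻¹) * up b hb = γ * (x⁻¹ * (γ⁻¹ * up b hb * γ)) * γ⁻¹ := by group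
      _ = γ * (t * x * t⁻¹ * up b' hb') * γ⁻¹ := by rw [h2, ht1]
      _ = γ * (t * (x * (t⁻¹ * up b' hb' * t) * x⁻¹ * x) * t⁻¹) * γ⁻¹ := by group
      _ = γ * (t * (v' * x * v'⁻¹) * t⁻¹) * γ⁻¹ := by rw [h3, h4, hv']
      _ = _ := by group
  calc lo c hc * (α * x * α⁻¹ * (γ * x⁻¹ * γ⁻¹)) * up b hb
      = (lo c hc * (α * x * α⁻¹)) * ((γ * x⁻¹ * γ⁻¹) * up b hb) := by group
    _ = _ := by rw [e1, e2]

end ThS
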