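import Pool.Agent.ThS.TriEx

/-! # Module Inv: isometries with square 1 -/

namespace ThS
open Matrix Module

variable {K V : Type*} [Field K] [AddCommGroup V] [Module K V] (q : AF K V)
variable {U : Submodule K V} {G : V →ₗ[K] V}

/-- Let `A = U ⊓ ker (G - 1)`, `B = U ⊓ ker (G + 1)`.  `h x y = h (G x) (G y) = - h x y` for `x ∈ A`, `y ∈ B`, so they are orthogonal; every
`x ∈ U` is `2⁻¹ (x + G x) + 2⁻¹ (x - G x)` (`invol`), so `A` and `B` are nondegenerate and `finrank U = finrank A + finrank B`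
(`A ⊓ B = ⊥`, `A ⊔ B = U`).  Now `hyp_all` and `hyp_sum`. -/
theorem inv_sys [FiniteDimensional K V] (h2 : (2 : K) ≠ 0) (hU : q.ND U) (hG : q.Iso U G)
    (h : ∀ w ∈ U, q.h w (G w) = 0) : ∃ (r s : ℕ) (w w' : Fin r → V) (v v' : Fin s → V),
      finrank K U = 2 * (r + s) ∧ q.Hyp U (Sum.elim w v) (Sum.elim w' v') ∧
      (∀ i, G (w i) = w i) ∧ (∀ i, G (w' i) = w' i) ∧ (∀ i, G (v i) = -v i) ∧ ∀ i, G (v' i) = -v' i := by
  obtain ⟨A, hA⟩ : ∃ A : Submodule K V, ∀ x, x ∈ A ↔ x ∈ U ∧ G x = x :=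
    ⟨U ⊓ LinearMap.ker (G - LinearMap.id), fun x => by
      rw [Submodule.mem_inf, LinearMap.mem_ker, LinearMap.sub_apply, LinearMap.id_apply,
        sub_eq_zero]⟩
  obtain ⟨B, hB⟩ : ∃ B : Submodule K V, ∀ x, x ∈ B ↔ x ∈ U ∧ G x = -x :=
    ⟨U ⊓ LinearMap.ker (G + LinearMap.id), fun x => by
      rw [Submodule.mem_inf, LinearMap.mem_ker, LinearMap.add_apply, LinearMap.id_apply,
        add_eq_zero_iff_eq_neg]⟩
  have hAU : A ≤ U := fun x hx => ((hA x).1 hx).1
  have hBU : B ≤ U := fun x hx => ((hB x).1 hx).1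
  have hAB : ∀ x ∈ A, ∀ y ∈ B, q.h x y = 0 := by
    intro x hx y hy
    obtain ⟨hx1, hx2⟩ := (hA x).1 hx
    obtain ⟨hy1, hy2⟩ := (hB y).1 hy
    have h3 := hG.2 x hx1 y hy1
    rw [hx2, hy2, map_neg] at h3
    have h4 : (2 : K) * q.h x y = 0 := by linear_combination -h3
    exact (mul_eq_zero.1 h4).resolve_left h2
  have hdec : ∀ x ∈ U, ∃ a ∈ A, ∃ b ∈ B, x = a + b := by
    intro x hx
    have hGG := invol q hU hG h hx
    refine ⟨(2 : K)⁻¹ • (x + G x), ?_, (2 : K)⁻¹ • (x - G x), ?_, ?_⟩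
    · rw [hA]
      refine ⟨U.smul_mem _ (U.add_mem hx (hG.1 x hx)), ?_⟩
      rw [map_smul, map_add, hGG, add_comm]
    · rw [hB]
      refine ⟨U.smul_mem _ (U.sub_mem hx (hG.1 x hx)), ?_⟩
      rw [map_smul, map_sub, hGG, ← smul_neg, neg_sub]
    · rw [← smul_add, add_add_sub_cancel, ← two_smul K x, smul_smul, inv_mul_cancel₀ h2, one_smul]
  have hAND : q.ND A := by
    intro x hx hxy
    refine hU x (hAU hx) fun z hz => ?_
    obtain ⟨a, ha, b, hb, rfl⟩ := hdec z hz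
    rw [map_add, hxy a ha, hAB x hx b hb, add_zero]
  have hBND : q.ND B := by
    intro x hx hxy
    refine hU x (hBU hx) fun z hz => ?_
    obtain ⟨a, ha, b, hb, rfl⟩ := hdec z hz
    rw [map_add, hxy b hb, q.swap_zero (hAB a ha x hx), add_zero]
  have hsup : A ⊔ B = U := by
    refine le_antisymm (sup_le hAU hBU) fun x hx => ?_
    obtain ⟨a, ha, b, hb, rfl⟩ := hdec x hx
    exact Submodule.add_mem_sup ha hb
  have hinf : A ⊓ B = ⊥ := by
    rw [eq_bot_iff]
    rintro x ⟨hx, hx'⟩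
    have h3 := ((hA x).1 hx).2
    have h4 := ((hB x).1 hx').2
    have h5 : (2 : K) • x = 0 := by
      rw [two_smul]
      nth_rw 1 [← h3]
      rw [h4, neg_add_cancel]
    exact (smul_eq_zero.1 h5).resolve_left h2
  have hfr := Submodule.finrank_sup_add_finrank_inf_eq A B
  rw [hsup, hinf, finrank_bot] at hfr
  obtain ⟨r, w, w', hr, hw⟩ := hyp_all q A hAND
  obtain ⟨s, v, v', hs, hv⟩ := hyp_all q B hBND
  exact ⟨r, s, w, w', v, v', by omega, hyp_sum q hAU hBU hAB hw hv,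
    fun i => ((hA _).1 (hw.mem i)).2, fun i => ((hA _).1 (hw.mem' i)).2,
    fun i => ((hB _).1 (hv.mem i)).2, fun i => ((hB _).1 (hv.mem' i)).2⟩

/-- the block of the odd case: the determinant is `1` and the trace is `0` -/
def a2 (K : Type*) [Field K] : Matrix (Fin 2) (Fin 2) K := !![-1, -2; 1, 1]

/-- Let `e1 = w 0`, `e1' = w' 0`, `e2 = v 0`, `e2' = v' 0`, and
`x1 = e1 + e2`, `x2 = e1' - e2'`, `x1' = 2⁻¹ (e1' + e2') + x1 - 2⁻¹ x2`, `x2' = - 2⁻¹ (e1 - e2) - 2⁻¹ x1 + 2⁻¹ x2`.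
`x1, x2, x1', x2'` is a hyperbolic system: `h (e1') e1 = h e2' e2 = 1`, so `h x1 x2 = -1 + 1 = 0`,
with `y1 = 2⁻¹ (e1' + e2')`, `y2 = - 2⁻¹ (e1 - e2)`: `h y1 x1 = 1`, `h y1 x2 = 0`, `h y2 x1 = 0`, `h y2 x2 = 1`, `h y1 y2 = 0`; and adding
`S x` to `y` with a symmetric matrix `S = !![1, -2⁻¹; -2⁻¹, 2⁻¹]` gives again a hyperbolic system.
`G x1 = e1 - e2`, `G x2 = e1' + e2'`; `h y_i (G x_j) = 0`, `h x1 (G x1) = 0`, `h x1 (G x2) = -2`, `h x2 (G x1) = 2`, `h x2 (G x2) = 0`, so the block is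
`S * !![0, -2; 2, 0] = !![-1, -2; 1, 1]`.
The system is `x1, x2` together with the `w i.succ` and the `v i.succ`, on `Fin 2 ⊕ (Fin r ⊕ Fin s)`. -/
theorem inv_odd (h2 : (2 : K) ≠ 0) {r s : ℕ} {w w' : Fin (r + 1) → V} {v v' : Fin (s + 1) → V}
    (h : q.Hyp U (Sum.elim w v) (Sum.elim w' v')) (hw : ∀ i, G (w i) = w i)
    (hw' : ∀ i, G (w' i) = w' i) (hv : ∀ i, G (v i) = -v i) (hv' : ∀ i, G (v' i) = -v' i) :
    q.Sys U G (fromBlocks (a2 K) 0 0 (diagonal (Sum.elim (fun _ => 1) (fun _ => -1))) :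
      Matrix (Fin 2 ⊕ (Fin r ⊕ Fin s)) (Fin 2 ⊕ (Fin r ⊕ Fin s)) K) := by
  have f1 : ∀ i j, q.h (w i) (w j) = 0 := fun i j => h.iso (Sum.inl i) (Sum.inl j)
  have f2 : ∀ i j, q.h (w i) (v j) = 0 := fun i j => h.iso (Sum.inl i) (Sum.inr j)
  have f3 : ∀ i j, q.h (v i) (w j) = 0 := fun i j => h.iso (Sum.inr i) (Sum.inl j)
  have f4 : ∀ i j, q.h (v i) (v j) = 0 := fun i j => h.iso (Sum.inr i) (Sum.inr j)
  have g1 : ∀ i j, q.h (w' i) (w' j) = 0 := fun i j => h.iso' (Sum.inl i) (Sum.inl j)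
  have g2 : ∀ i j, q.h (w' i) (v' j) = 0 := fun i j => h.iso' (Sum.inl i) (Sum.inr j)
  have g3 : ∀ i j, q.h (v' i) (w' j) = 0 := fun i j => h.iso' (Sum.inr i) (Sum.inl j)
  have g4 : ∀ i j, q.h (v' i) (v' j) = 0 := fun i j => h.iso' (Sum.inr i) (Sum.inr j)
  have d1 : ∀ i j, q.h (w' i) (w j) = if i = j then 1 else 0 := fun i j => by
    have h3 := h.dual (Sum.inl i) (Sum.inl j)
    simpa using h3
  have d2 : ∀ i j, q.h (w' i) (v j) = 0 := fun i j => by
    have h3 := h.dual (Sum.inl i) (Sum.inr j)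
    simpa using h3
  have d3 : ∀ i j, q.h (v' i) (w j) = 0 := fun i j => by
    have h3 := h.dual (Sum.inr i) (Sum.inl j)
    simpa using h3
  have d4 : ∀ i j, q.h (v' i) (v j) = if i = j then 1 else 0 := fun i j => by
    have h3 := h.dual (Sum.inr i) (Sum.inr j)
    simpa using h3
  have c1 : ∀ i j, q.h (w i) (w' j) = -(if j = i then 1 else 0) := fun i j => by
    rw [q.symm (w' j) (w i), d1]
  have c2 : ∀ i j, q.h (w i) (v' j) = 0 := fun i j => q.swap_zero (d3 j i)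
  have c3 : ∀ i j, q.h (v i) (w' j) = 0 := fun i j => q.swap_zero (d2 j i)
  have c4 : ∀ i j, q.h (v i) (v' j) = -(if j = i then 1 else 0) := fun i j => by
    rw [q.symm (v' j) (v i), d4]
  have mw : ∀ i, w i ∈ U := fun i => h.mem (Sum.inl i)
  have mv : ∀ i, v i ∈ U := fun i => h.mem (Sum.inr i)
  have mw' : ∀ i, w' i ∈ U := fun i => h.mem' (Sum.inl i)
  have mv' : ∀ i, v' i ∈ U := fun i => h.mem' (Sum.inr i)
  obtain ⟨X, hX0, hX1⟩ : ∃ X : Fin 2 → V, X 0 = w 0 + v 0 ∧ X 1 = w' 0 - v' 0 :=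
    ⟨![w 0 + v 0, w' 0 - v' 0], rfl, rfl⟩
  obtain ⟨X', hX0', hX1'⟩ : ∃ X' : Fin 2 → V,
      X' 0 = (2 : K)⁻¹ • (w' 0 + v' 0) + (w 0 + v 0) - (2 : K)⁻¹ • (w' 0 - v' 0) ∧
      X' 1 = -((2 : K)⁻¹ • (w 0 - v 0)) - (2 : K)⁻¹ • (w 0 + v 0) + (2 : K)⁻¹ • (w' 0 - v' 0) :=
    ⟨![_, _], rfl, rfl⟩
  have hs : ∀ {m : ℕ} (i : Fin m), ¬ (0 : Fin (m + 1)) = i.succ := fun i h => Fin.succ_ne_zero i h.symm
  have mX : ∀ i, X i ∈ U := by
    refine Fin.forall_fin_two.2 ⟨?_, ?_⟩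
    · rw [hX0]
      exact U.add_mem (mw 0) (mv 0)
    · rw [hX1]
      exact U.sub_mem (mw' 0) (mv' 0)
  have mX' : ∀ i, X' i ∈ U := by
    refine Fin.forall_fin_two.2 ⟨?_, ?_⟩
    · rw [hX0']
      exact U.sub_mem (U.add_mem (U.smul_mem _ (U.add_mem (mw' 0) (mv' 0)))
        (U.add_mem (mw 0) (mv 0))) (U.smul_mem _ (U.sub_mem (mw' 0) (mv' 0)))
    · rw [hX1']
      exact U.add_mem (U.sub_mem (U.neg_mem (U.smul_mem _ (U.sub_mem (mw 0) (mv 0))))
        (U.smul_mem _ (U.add_mem (mw 0) (mv 0)))) (U.smul_mem _ (U.sub_mem (mw' 0) (mv' 0)))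
  have hXX : ∀ i j, q.h (X i) (X j) = 0 := by
    refine Fin.forall_fin_two.2 ⟨Fin.forall_fin_two.2 ⟨?_, ?_⟩, Fin.forall_fin_two.2 ⟨?_, ?_⟩⟩ <;>
    · simp only [hX0, hX1, map_add, map_sub, q.add_left, q.sub_left, f1, f2, f3, f4, g1, g2, g3, g4,
        d1, d2, d3, d4, c1, c2, c3, c4, if_true]
      ring
  have hX'X' : ∀ i j, q.h (X' i) (X' j) = 0 := by
    refine Fin.forall_fin_two.2 ⟨Fin.forall_fin_two.2 ⟨?_, ?_⟩, Fin.forall_fin_two.2 ⟨?_, ?_⟩⟩ <;>
    · simp only [hX0', hX1', map_add, map_sub, map_neg, map_smul, smul_eq_mul, q.add_left,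
        q.sub_left, q.neg_left, q.smul_left, f1, f2, f3, f4, g1, g2, g3, g4, d1, d2, d3, d4, c1, c2,
        c3, c4, if_true]
      field_simp
      ring
  have hX'X : ∀ i j, q.h (X' i) (X j) = if i = j then 1 else 0 := by
    refine Fin.forall_fin_two.2 ⟨Fin.forall_fin_two.2 ⟨?_, ?_⟩, Fin.forall_fin_two.2 ⟨?_, ?_⟩⟩
    · rw [if_pos rfl]
      simp only [hX0', hX0, map_add, map_sub, map_neg, map_smul, smul_eq_mul, q.add_left,
        q.sub_left, q.neg_left, q.smul_left, f1, f2, f3, f4, g1, g2, g3, g4, d1, d2, d3, d4, c1, c2,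
        c3, c4, if_true]
      field_simp
      ring
    · rw [if_neg (by decide)]
      simp only [hX0', hX1, map_add, map_sub, map_neg, map_smul, smul_eq_mul, q.add_left,
        q.sub_left, q.neg_left, q.smul_left, f1, f2, f3, f4, g1, g2, g3, g4, d1, d2, d3, d4, c1, c2,
        c3, c4, if_true]
      field_simp
      ring
    · rw [if_neg (by decide)]
      simp only [hX1', hX0, map_add, map_sub, map_neg, map_smul, smul_eq_mul, q.add_left,
        q.sub_left, q.neg_left, q.smul_left, f1, f2, f3, f4, g1, g2, g3, g4, d1, d2, d3, d4, c1, c2,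
        c3, c4, if_true]
      field_simp
      ring
    · rw [if_pos rfl]
      simp only [hX1', hX1, map_add, map_sub, map_neg, map_smul, smul_eq_mul, q.add_left,
        q.sub_left, q.neg_left, q.smul_left, f1, f2, f3, f4, g1, g2, g3, g4, d1, d2, d3, d4, c1, c2,
        c3, c4, if_true]
      field_simp
      ring
  have hXG : ∀ i j, q.h (X' i) (G (X j)) = a2 K i j := by
    refine Fin.forall_fin_two.2 ⟨Fin.forall_fin_two.2 ⟨?_, ?_⟩, Fin.forall_fin_two.2 ⟨?_, ?_⟩⟩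
    · show _ = (-1 : K)
      simp only [hX0', hX0, hw, hw', hv, hv', map_add, map_sub, map_neg, map_smul, smul_eq_mul, q.add_left,
        q.sub_left, q.neg_left, q.smul_left, f1, f2, f3, f4, g1, g2, g3, g4, d1, d2, d3, d4, c1, c2,
        c3, c4, if_true]
      field_simp
      ring
    · show _ = (-2 : K)
      simp only [hX0', hX1, hw, hw', hv, hv', map_add, map_sub, map_neg, map_smul, smul_eq_mul, q.add_left,
        q.sub_left, q.neg_left, q.smul_left, f1, f2, f3, f4, g1, g2, g3, g4, d1, d2, d3, d4, c1, c2,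
        c3, c4, if_true]
      field_simp
      ring
    · show _ = (1 : K)
      simp only [hX1', hX0, hw, hw', hv, hv', map_add, map_sub, map_neg, map_smul, smul_eq_mul, q.add_left,
        q.sub_left, q.neg_left, q.smul_left, f1, f2, f3, f4, g1, g2, g3, g4, d1, d2, d3, d4, c1, c2,
        c3, c4, if_true]
      field_simp
      ring
    · show _ = (1 : K)
      simp only [hX1', hX1, hw, hw', hv, hv', map_add, map_sub, map_neg, map_smul, smul_eq_mul, q.add_left,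
        q.sub_left, q.neg_left, q.smul_left, f1, f2, f3, f4, g1, g2, g3, g4, d1, d2, d3, d4, c1, c2,
        c3, c4, if_true]
      field_simp
      ring
  -- orthogonality to the other vectors
  have ow : ∀ i (j : Fin r), q.h (X i) (w j.succ) = 0 ∧ q.h (X' i) (w j.succ) = 0 := by
    refine Fin.forall_fin_two.2 ⟨fun j => ?_, fun j => ?_⟩ <;>
    · simp [hX0, hX1, hX0', hX1', q.add_left, q.sub_left, q.neg_left, q.smul_left, f1, f3, d1, d3, hs]
  have ov : ∀ i (j : Fin s), q.h (X i) (v j.succ) = 0 ∧ q.h (X' i) (v j.succ) = 0 := by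
    refine Fin.forall_fin_two.2 ⟨fun j => ?_, fun j => ?_⟩ <;>
    · simp [hX0, hX1, hX0', hX1', q.add_left, q.sub_left, q.neg_left, q.smul_left, f2, f4, d2, d4, hs]
  have ow' : ∀ i (j : Fin r), q.h (X i) (w' j.succ) = 0 ∧ q.h (X' i) (w' j.succ) = 0 := by
    refine Fin.forall_fin_two.2 ⟨fun j => ?_, fun j => ?_⟩ <;>
    · simp [hX0, hX1, hX0', hX1', q.add_left, q.sub_left, q.neg_left, q.smul_left, g1, g3, c1, c3]
  have ov' : ∀ i (j : Fin s), q.h (X i) (v' j.succ) = 0 ∧ q.h (X' i) (v' j.succ) = 0 := by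
    refine Fin.forall_fin_two.2 ⟨fun j => ?_, fun j => ?_⟩ <;>
    · simp [hX0, hX1, hX0', hX1', q.add_left, q.sub_left, q.neg_left, q.smul_left, g2, g4, c2, c4]
  refine ⟨Sum.elim X (Sum.elim (fun i => w i.succ) fun i => v i.succ),
    Sum.elim X' (Sum.elim (fun i => w' i.succ) fun i => v' i.succ), ⟨?_, ?_, ?_, ?_, ?_⟩, ?_⟩
  · rintro (i | i | i)
    · exact mX i
    · exact mw _
    · exact mv _
  · rintro (i | i | i)
    · exact mX' i
    · exact mw' _
    · exact mv' _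
  · rintro (i | i | i) (j | j | j)
    · exact hXX i j
    · exact (ow i j).1
    · exact (ov i j).1
    · exact q.swap_zero (ow j i).1
    · exact f1 _ _
    · exact f2 _ _
    · exact q.swap_zero (ov j i).1
    · exact f3 _ _
    · exact f4 _ _
  · rintro (i | i | i) (j | j | j)
    · exact hX'X' i j
    · exact (ow' i j).2
    · exact (ov' i j).2
    · exact q.swap_zero (ow' j i).2
    · exact g1 _ _
    · exact g2 _ _
    · exact q.swap_zero (ov' j i).2
    · exact g3 _ _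
    · exact g4 _ _
  · rintro (i | i | i) (j | j | j)
    · simp only [Sum.elim_inl, Sum.inl.injEq]
      exact hX'X i j
    · simp only [Sum.elim_inl, Sum.elim_inr, reduceCtorEq, if_false]
      exact (ow i j).2
    · simp only [Sum.elim_inl, Sum.elim_inr, reduceCtorEq, if_false]
      exact (ov i j).2
    · simp only [Sum.elim_inl, Sum.elim_inr, reduceCtorEq, if_false]
      exact q.swap_zero (ow' j i).1
    · simp only [Sum.elim_inl, Sum.elim_inr, Sum.inr.injEq, Sum.inl.injEq]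
      rw [d1]
      simp only [Fin.succ_inj]
    · simp only [Sum.elim_inl, Sum.elim_inr, Sum.inr.injEq, reduceCtorEq, if_false]
      exact d2 _ _
    · simp only [Sum.elim_inl, Sum.elim_inr, reduceCtorEq, if_false]
      exact q.swap_zero (ov' j i).1
    · simp only [Sum.elim_inl, Sum.elim_inr, Sum.inr.injEq, reduceCtorEq, if_false]
      exact d3 _ _
    · simp only [Sum.elim_inr, Sum.inr.injEq]
      rw [d4]
      simp only [Fin.succ_inj]
  · rintro (i | i | i) (j | j | j)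
    · exact hXG i j
    · show q.h (X' i) (G (w j.succ)) = 0
      rw [hw]
      exact (ow i j).2
    · show q.h (X' i) (G (v j.succ)) = 0
      rw [hv, map_neg, (ov i j).2, neg_zero]
    · show q.h (w' i.succ) (G (X j)) = 0
      revert j
      refine Fin.forall_fin_two.2 ⟨?_, ?_⟩
      · rw [hX0, map_add, map_add, hw, hv, map_neg, d1, d2, if_neg (Fin.succ_ne_zero i), neg_zero,
          add_zero]
      · rw [hX1, map_sub, map_sub, hw', hv', map_neg, g1, g2, neg_zero, sub_zero]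
    · show q.h (w' i.succ) (G (w j.succ)) = (diagonal (Sum.elim (fun _ => (1 : K)) fun _ => -1)) (Sum.inl i) (Sum.inl j)
      rw [hw, d1, Matrix.diagonal_apply]
      simp only [Fin.succ_inj, Sum.inl.injEq, Sum.elim_inl]
    · show q.h (w' i.succ) (G (v j.succ)) = (diagonal (Sum.elim (fun _ => (1 : K)) fun _ => -1)) (Sum.inl i) (Sum.inr j)
      rw [hv, map_neg, d2, neg_zero, Matrix.diagonal_apply_ne _ (by simp)]
    · show q.h (v' i.succ) (G (X j)) = 0
      revert j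
      refine Fin.forall_fin_two.2 ⟨?_, ?_⟩
      · rw [hX0, map_add, map_add, hw, hv, map_neg, d3, d4, if_neg (Fin.succ_ne_zero i), neg_zero,
          add_zero]
      · rw [hX1, map_sub, map_sub, hw', hv', map_neg, g3, g4, neg_zero, sub_zero]
    · show q.h (v' i.succ) (G (w j.succ)) = (diagonal (Sum.elim (fun _ => (1 : K)) fun _ => -1)) (Sum.inr i) (Sum.inl j)
      rw [hw, d3, Matrix.diagonal_apply_ne _ (by simp)]
    · show q.h (v' i.succ) (G (v j.succ)) = (diagonal (Sum.elim (fun _ => (1 : K)) fun _ => -1)) (Sum.inr i) (Sum.inr j)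
      rw [hv, map_neg, d4, Matrix.diagonal_apply]
      simp only [Fin.succ_inj, Sum.inr.injEq, Sum.elim_inr]
      split_ifs <;> simp

end ThS
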