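import Pool.Agent.ThU.Fact
import Pool.Agent.ThU.SeedB

/-! # Module Split2: factorization for the block `a2 ⊕ diagonal d` -/

namespace ThS
open Matrix Polynomial Module

variable {K : Type*} [Field K]

section aux

open ThU.SplitAux

/-- solution of the modified equation -/
private theorem Split2_sol {m N : ℕ} (hm : 0 < m) (hN : 2 + m = N) {A : Matrix (Fin N) (Fin N) K}
    (hA : ∀ i j, j < i → A i j = 0) (hA0 : ∀ i, A i i ≠ 0) {f : K[X]} (hf : f.Monic)
    (hn : f.natDegree = N) (η : K) : ∃ e : ℕ → Fin N → K,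
      (∀ (k : ℕ) (i : Fin N), 2 ≤ (i : ℕ) → e k i = 0) ∧ (∀ k, k + 1 < 2 → e k = 0) ∧
      L A f (e0 N) e = ell A (N - 1) • (fun i : Fin N => f.coeff (i + 1)) + η • e0 N := by
  have h1 : L A f (e0 N) 0 ⟨N - 1, by omega⟩ = ell A (N - 1) := by
    have h2 : L A f (e0 N) 0 ⟨N - 1, by omega⟩ =
        ∑ k ∈ Finset.range N, f.coeff (k + 1) * R A (e0 N) 0 k ⟨N - 1, by omega⟩ := by
      simp [L, Finset.sum_apply]
    have hP := fun k hk => P_dg (s := 2) hA (e := 0) (fun _ _ _ => rfl) (fun _ _ => rfl) k hk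
    rw [h2, Finset.sum_eq_single (N - 1)]
    · rw [(hP (N - 1) (by omega)).2, show N - 1 + 1 = f.natDegree by omega]
      rw [show f.coeff f.natDegree = 1 from hf.coeff_natDegree, one_mul]
    · intro k hk hne
      rw [Finset.mem_range] at hk
      rw [(hP k hk).1 _ (by simp only; omega), mul_zero]
    · exact fun h => absurd (Finset.mem_range.2 (by omega)) h
  obtain ⟨e, he1, he2, he3⟩ := L_surj (by norm_num : 0 < 2) hm hN hA hA0 hf hn (N - 1) (by omega)
    (ell A (N - 1) • (fun i : Fin N => f.coeff (i + 1)) + η • e0 N - L A f (e0 N) 0)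
    (fun i hi => by
      have h3 : i = ⟨N - 1, by omega⟩ := Fin.ext (by simp only; omega)
      show ell A (N - 1) * f.coeff (i + 1) + η * (if (i : ℕ) = 0 then 1 else 0) -
        L A f (e0 N) 0 i = 0
      rw [if_neg (by omega), h3, h1]
      show ell A (N - 1) * f.coeff (N - 1 + 1) + η * 0 - ell A (N - 1) = 0
      rw [show N - 1 + 1 = f.natDegree by omega,
        show f.coeff f.natDegree = 1 from hf.coeff_natDegree, mul_one, mul_zero, add_zero, sub_self])
  refine ⟨e, he1, he2, ?_⟩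
  have h4 := L_add A f (e0 N) 0 0 e
  rw [add_zero, zero_add] at h4
  rw [h4, he3]
  abel

/-- the key identity: `M * B * T = T * B` -/
private theorem Split2_key {N : ℕ} (hN : 2 ≤ N) {A M : Matrix (Fin N) (Fin N) K} {f : K[X]}
    {e : ℕ → Fin N → K} (hP : ∀ k (hk : k < N), dg k (R A (e0 N) e k) ∧
      R A (e0 N) e k ⟨k, hk⟩ = ell A k) (hf : f.Monic) (hn : f.natDegree = N)
    {d0 κ : K} (hL : L A f (e0 N) e = ell A (N - 1) • (fun i : Fin N => f.coeff (i + 1)) +
      (ell A (N - 1) * f.coeff 0 * κ) • e0 N)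
    (hd0 : ell A (N - 1) * d0 = 1) (hM0 : M.mulVec (e0 N) = d0 • e0 N + κ • R A (e0 N) e 1)
    (hM : ∀ k, k + 1 < N → M.mulVec (sh N (R A (e0 N) e k)) = R A (e0 N) e (k + 1)) :
    M * ThU.comp f N * (Matrix.of fun i k : Fin N => R A (e0 N) e k i) =
      (Matrix.of fun i k : Fin N => R A (e0 N) e k i) * ThU.comp f N := by
  set P := R A (e0 N) e with hPdef
  set T : Matrix (Fin N) (Fin N) K := Matrix.of fun i k : Fin N => P k i with hT
  have hN0 : 0 < N := by omega
  have hcolT : ∀ v : Fin N → K, T.mulVec v = ∑ k : Fin N, v k • P k := by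
    intro v
    funext i
    simp [hT, Matrix.mulVec, dotProduct, Finset.sum_apply, mul_comm]
  -- columns
  have hext : ∀ X Y : Matrix (Fin N) (Fin N) K,
      (∀ k : Fin N, X.mulVec (Pi.single k 1) = Y.mulVec (Pi.single k 1)) → X = Y := by
    intro X Y h
    ext i k
    have := congrFun (h k) i
    simpa using this
  refine hext _ _ fun k => ?_
  have hTk : T.mulVec (Pi.single k 1) = P k := by
    rw [hcolT, Finset.sum_eq_single k]
    · simp
    · intro j _ hj
      simp [hj]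
    · exact fun h => absurd (Finset.mem_univ _) h
  rw [← Matrix.mulVec_mulVec, ← Matrix.mulVec_mulVec, ← Matrix.mulVec_mulVec, hTk]
  rw [comp_mulVec hN0, comp_mulVec hN0]
  by_cases hk : (k : ℕ) + 1 < N
  · have h1 : P k ⟨N - 1, by omega⟩ = 0 := (hP k k.2).1 _ (by simp only; omega)
    have h2 : (Pi.single k (1 : K) : Fin N → K) ⟨N - 1, by omega⟩ = 0 := by
      rw [Pi.single_apply, if_neg (fun h => by have := congrArg Fin.val h; simp only at this; omega)]
    rw [h1, h2, zero_smul, sub_zero, sub_zero, hM k hk]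
    have h3 : sh N (Pi.single k (1 : K)) = Pi.single ⟨k + 1, hk⟩ 1 := by
      funext i
      by_cases h4 : 0 < (i : ℕ)
      · show (if h : 0 < (i : ℕ) then (Pi.single k (1 : K) : Fin N → K) ⟨i - 1, by omega⟩ else 0) = _
        rw [dif_pos h4, Pi.single_apply, Pi.single_apply]
        by_cases h5 : (i : ℕ) = k + 1
        · rw [if_pos (Fin.ext (by simp only; omega)), if_pos (Fin.ext (by simp only; omega))]
        · rw [if_neg (fun h => h5 (by have := congrArg Fin.val h; simp only at this; omega)),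
            if_neg (fun h => h5 (by have := congrArg Fin.val h; simp only at this; omega))]
      · show (if h : 0 < (i : ℕ) then (Pi.single k (1 : K) : Fin N → K) ⟨i - 1, by omega⟩ else 0) = _
        rw [dif_neg h4, Pi.single_apply,
          if_neg (fun h => by have := congrArg Fin.val h; simp only at this; omega)]
    rw [h3, hcolT, Finset.sum_eq_single (⟨k + 1, hk⟩ : Fin N)]
    · simp
    · intro j _ hj
      simp [hj]
    · exact fun h => absurd (Finset.mem_univ _) h
  · have hk' : (k : ℕ) = N - 1 := by omega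
    have h1 : P k ⟨N - 1, by omega⟩ = ell A (N - 1) := by
      rw [hk']
      exact (hP (N - 1) (by omega)).2
    have h2 : (Pi.single k (1 : K) : Fin N → K) ⟨N - 1, by omega⟩ = 1 := by
      rw [Pi.single_apply, if_pos (Fin.ext (by simp only; omega))]
    have h3 : sh N (Pi.single k (1 : K)) = 0 := by
      funext i
      by_cases h4 : 0 < (i : ℕ)
      · show (if h : 0 < (i : ℕ) then (Pi.single k (1 : K) : Fin N → K) ⟨i - 1, by omega⟩ else 0) = 0
        rw [dif_pos h4, Pi.single_apply, if_neg (fun h => by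
          have := congrArg Fin.val h; simp only at this; omega)]
      · show (if h : 0 < (i : ℕ) then (Pi.single k (1 : K) : Fin N → K) ⟨i - 1, by omega⟩ else 0) = 0
        rw [dif_neg h4]
    rw [h1, h2, h3, one_smul, zero_sub]
    -- (*) shifted
    have h5 : ∑ j ∈ Finset.range N, f.coeff (j + 1) • sh N (P j) =
        ell A (N - 1) • (fun i : Fin N => f.coeff i) - (ell A (N - 1) * f.coeff 0) • e0 N +
          (ell A (N - 1) * f.coeff 0 * κ) • sh N (P 0) := by
      have h6 : sh N (L A f (e0 N) e) = ∑ j ∈ Finset.range N, f.coeff (j + 1) • sh N (P j) := by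
        simp only [L, map_sum, map_smul, hPdef]
      have hP0 : P 0 = e0 N := rfl
      rw [← h6, hL, map_add, map_smul, map_smul, hP0]
      congr 1
      funext i
      by_cases h4 : 0 < (i : ℕ)
      · show ell A (N - 1) * (if h : 0 < (i : ℕ) then f.coeff ((i : ℕ) - 1 + 1) else 0) =
          ell A (N - 1) * f.coeff i - (ell A (N - 1) * f.coeff 0) * (if (i : ℕ) = 0 then 1 else 0)
        rw [dif_pos h4, if_neg (by omega), mul_zero, sub_zero, show (i : ℕ) - 1 + 1 = i by omega]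
      · show ell A (N - 1) * (if h : 0 < (i : ℕ) then f.coeff ((i : ℕ) - 1 + 1) else 0) =
          ell A (N - 1) * f.coeff i - (ell A (N - 1) * f.coeff 0) * (if (i : ℕ) = 0 then 1 else 0)
        rw [dif_neg h4, if_pos (by omega), show (i : ℕ) = 0 by omega]
        ring
    obtain ⟨N', rfl⟩ : ∃ N', N = N' + 1 := ⟨N - 1, by omega⟩
    rw [Finset.sum_range_succ, show f.coeff (N' + 1) = 1 by rw [← hn]; exact hf.coeff_natDegree,
      one_smul] at h5
    have hk2 : (k : ℕ) = N' := by omega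
    have h7 : sh (N' + 1) (P k) - ell A (N' + 1 - 1) • (fun i : Fin (N' + 1) => f.coeff i) =
        -((ell A (N' + 1 - 1) * f.coeff 0) • e0 (N' + 1)) +
          (ell A (N' + 1 - 1) * f.coeff 0 * κ) • sh (N' + 1) (P 0) -
          ∑ j ∈ Finset.range N', f.coeff (j + 1) • sh (N' + 1) (P j) := by
      rw [hk2]
      have h8 := eq_sub_of_add_eq' h5
      rw [h8]
      abel
    rw [h7, Matrix.mulVec_sub, Matrix.mulVec_add, Matrix.mulVec_neg, Matrix.mulVec_smul,
      Matrix.mulVec_smul, hM0, Matrix.mulVec_sum, hM 0 (by omega)]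
    have h9 : ∀ j ∈ Finset.range N', M.mulVec (f.coeff (j + 1) • sh (N' + 1) (P j)) =
        f.coeff (j + 1) • P (j + 1) := by
      intro j hj
      rw [Finset.mem_range] at hj
      rw [Matrix.mulVec_smul, hM j (by omega)]
    rw [Finset.sum_congr rfl h9, Matrix.mulVec_neg, hcolT]
    have h10 : (∑ k : Fin (N' + 1), f.coeff k • P k) =
        f.coeff 0 • P 0 + ∑ j ∈ Finset.range N', f.coeff (j + 1) • P (j + 1) := by
      rw [Fin.sum_univ_succ, Finset.sum_range]
      rfl
    have h11 : (∑ k : Fin (N' + 1), (fun i : Fin (N' + 1) => f.coeff i) k • P k) =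
        ∑ k : Fin (N' + 1), f.coeff k • P k := rfl
    rw [h11, h10]
    have h12 : ell A (N' + 1 - 1) * f.coeff 0 * d0 = f.coeff 0 := by
      rw [mul_right_comm, hd0, one_mul]
    have hP0 : e0 (N' + 1) = P 0 := rfl
    rw [hP0, zero_add, smul_add, smul_smul, smul_smul, h12]
    abel

end aux

/-- This is `ThU.split` (`Pool/Agent/ThU/Split.lean`) for `s = 2` and a block `a2` which is not triangular.
The proof there only uses the first column of the matrix in `key`.  Let `a2 = !![α, β; γ, δ]`, `δ ≠ 0`, `N = 2 + m`,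
`M = fromBlocks a2 Y 0 a'` and let `A` be the upper triangular matrix with the columns `A e_0 = d0 e_0`, `A e_1 = β e_0 + δ e_1`,
`A e_{2+j} = ` the column `a' j`, where `d0 = det a2 / δ`.  Then `M e_0 = d0 e_0 + κ M e_1` with `κ = γ / δ`, and (`ThU.SplitAux`) the vectors
`P k = R A (e0 N) e k` satisfy `M (sh N (P k)) = P (k + 1)` for `k + 1 < N` if `Y` is chosen as in `split` (the shifted vectors
`sh N (P k)` have the first coordinate `0`, so the first column of the matrix is not used; `e 0 = 0` and the other `e k` are zero in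
the rows `≥ 2`).  The only change is in the equation (*): choose `e` (by `L_surj`, as in `sol`) with
`L A f (e0 N) e = ell A (N - 1) • (fun i => f.coeff (i + 1)) + η • e0 N`, `η = ell A (N - 1) * f.coeff 0 * κ`.
Then in the last column of `key`:
`sh N (P (N - 1)) - ell • (fun i => f.coeff i) = - (ell * f.coeff 0) • e0 N + η • sh N (e0 N) - ∑_{j < N - 1} f.coeff (j + 1) • sh N (P j)` and `M` maps this to
`- ell f_0 (d0 e_0 + κ P 1) + η P 1 - ∑_{j < N - 1} f_{j+1} P (j + 1) = - ∑_{j < N} f_j P j`, as `ell * d0 = det a2 * ∏ a' i i = 1`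
(`ell_prod`).  So `M * comp f N * T = T * comp f N`. -/
theorem split2 {m : ℕ} (hm : 0 < m) (a2 : Matrix (Fin 2) (Fin 2) K) (hδ : a2 1 1 ≠ 0)
    (a' : Matrix (Fin m) (Fin m) K) (h2 : ∀ i j, j < i → a' i j = 0)
    (hd : a2.det * ∏ i, a' i i = 1) {f : K[X]} (hf : f.Monic) (hn : f.natDegree = 2 + m)
    (h0 : f.coeff 0 ≠ 0) :
    ∃ (Y : Matrix (Fin 2) (Fin m) K) (T : Matrix (Fin (2 + m)) (Fin (2 + m)) K), IsUnit T.det ∧
      (fromBlocks a2 Y 0 a').reindex finSumFinEquiv finSumFinEquiv =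
        T * ThU.comp f (2 + m) * T⁻¹ * (ThU.comp f (2 + m))⁻¹ := by
  obtain ⟨d0, hd0def⟩ : ∃ d0, d0 = a2.det / a2 1 1 := ⟨_, rfl⟩
  have hd0δ : d0 * a2 1 1 = a2.det := by rw [hd0def, div_mul_cancel₀ _ hδ]
  obtain ⟨κ, hκ⟩ : ∃ κ, κ = a2 1 0 / a2 1 1 := ⟨_, rfl⟩
  have hκδ : κ * a2 1 1 = a2 1 0 := by rw [hκ, div_mul_cancel₀ _ hδ]
  have hdet2 : a2.det = a2 0 0 * a2 1 1 - a2 0 1 * a2 1 0 := Matrix.det_fin_two a2
  obtain ⟨a1, ha1⟩ : ∃ a1 : Matrix (Fin 2) (Fin 2) K, a1 = !![d0, a2 0 1; 0, a2 1 1] := ⟨_, rfl⟩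
  have a00 : a1 0 0 = d0 := by rw [ha1]; rfl
  have a01 : a1 0 1 = a2 0 1 := by rw [ha1]; rfl
  have a10 : a1 1 0 = 0 := by rw [ha1]; rfl
  have a11 : a1 1 1 = a2 1 1 := by rw [ha1]; rfl
  have h1 : ∀ i j : Fin 2, j < i → a1 i j = 0 := by
    intro i j hij
    fin_cases i <;> fin_cases j
    · exact absurd hij (by decide)
    · exact absurd hij (by decide)
    · exact a10
    · exact absurd hij (by decide)
  set A : Matrix (Fin (2 + m)) (Fin (2 + m)) K :=
    Matrix.reindex finSumFinEquiv finSumFinEquiv (fromBlocks a1 0 0 a') with hAdef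
  have hl : ∀ i (hi : i < 2), (finSumFinEquiv.symm (⟨i, by omega⟩ : Fin (2 + m)) : Fin 2 ⊕ Fin m) =
      Sum.inl ⟨i, hi⟩ := fun i hi => by
    rw [Equiv.symm_apply_eq]
    rfl
  have hr : ∀ i (hi : i < m), (finSumFinEquiv.symm (⟨2 + i, by omega⟩ : Fin (2 + m)) :
      Fin 2 ⊕ Fin m) = Sum.inr ⟨i, hi⟩ := fun i hi => by
    rw [Equiv.symm_apply_eq]
    rfl
  have hcase : ∀ i : Fin (2 + m), (∃ j : Fin 2, i = ⟨j, by omega⟩) ∨
      ∃ j : Fin m, i = ⟨2 + j, by omega⟩ := by
    intro i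
    by_cases h : (i : ℕ) < 2
    · exact Or.inl ⟨⟨i, h⟩, rfl⟩
    · exact Or.inr ⟨⟨i - 2, by omega⟩, Fin.ext (by simp only; omega)⟩
  have hA11 : ∀ i j : Fin 2, A ⟨i, by omega⟩ ⟨j, by omega⟩ = a1 i j := by
    intro i j
    show fromBlocks a1 0 0 a' (finSumFinEquiv.symm _) (finSumFinEquiv.symm _) = _
    rw [hl i i.2, hl j j.2]
    rfl
  have hA21 : ∀ (i : Fin m) (j : Fin 2), A ⟨2 + i, by omega⟩ ⟨j, by omega⟩ = 0 := by
    intro i j
    show fromBlocks a1 0 0 a' (finSumFinEquiv.symm _) (finSumFinEquiv.symm _) = _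
    rw [hr i i.2, hl j j.2]
    rfl
  have hA22 : ∀ i j : Fin m, A ⟨2 + i, by omega⟩ ⟨2 + j, by omega⟩ = a' i j := by
    intro i j
    show fromBlocks a1 0 0 a' (finSumFinEquiv.symm _) (finSumFinEquiv.symm _) = _
    rw [hr i i.2, hr j j.2]
    rfl
  have hA : ∀ i j, j < i → A i j = 0 := by
    intro i j hij
    rcases hcase i with ⟨i, rfl⟩ | ⟨i, rfl⟩
    · rcases hcase j with ⟨j, rfl⟩ | ⟨j, rfl⟩
      · rw [hA11]
        exact h1 i j hij
      · exfalso
        have : 2 + (j : ℕ) < i := hij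
        omega
    · rcases hcase j with ⟨j, rfl⟩ | ⟨j, rfl⟩
      · exact hA21 i j
      · rw [hA22]
        refine h2 i j ?_
        have : 2 + (j : ℕ) < 2 + i := hij
        exact Fin.lt_def.2 (by omega)
  have hprod : ∏ i, A i i = 1 := by
    rw [Fin.prod_univ_add, ← hd]
    congr 1
    · rw [Fin.prod_univ_two, ← hd0δ, ← a00, ← a11]
      congr 1
    · exact Finset.prod_congr rfl fun i _ => hA22 i i
  have hA0 : ∀ i, A i i ≠ 0 := by
    have : ∏ i, A i i ≠ 0 := by rw [hprod]; exact one_ne_zero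
    intro i
    exact Finset.prod_ne_zero_iff.1 this i (Finset.mem_univ i)
  obtain ⟨e, he1, he2, he3⟩ := Split2_sol hm rfl hA hA0 hf hn
    (ThU.SplitAux.ell A (2 + m - 1) * f.coeff 0 * κ)
  have hP := fun k hk => ThU.SplitAux.P_dg (s := 2) hA he1 he2 k hk
  set P := ThU.SplitAux.R A (ThU.SplitAux.e0 (2 + m)) e with hPdef
  -- the block Y
  set Rm : Matrix (Fin m) (Fin m) K := Matrix.of fun j k => P (1 + k) ⟨1 + j, by omega⟩ with hRm
  have hRu : IsUnit Rm.det := by
    refine ThU.SplitAux.upper_unit (fun i j hij => ?_) fun i => ?_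
    · exact (hP (1 + j) (by omega)).1 _ (by have := Fin.lt_def.1 hij; simp only; omega)
    · show P (1 + i) ⟨1 + i, _⟩ ≠ 0
      rw [(hP (1 + i) (by omega)).2]
      exact ThU.SplitAux.ell_ne hA0 _
  set E : Matrix (Fin 2) (Fin m) K := Matrix.of fun i k => e (1 + k) ⟨i, by omega⟩ with hE
  set Y : Matrix (Fin 2) (Fin m) K := E * Rm⁻¹ with hY
  have hYR : Y * Rm = E := by
    rw [hY, Matrix.mul_assoc, Matrix.nonsing_inv_mul _ hRu, Matrix.mul_one]
  set M : Matrix (Fin (2 + m)) (Fin (2 + m)) K :=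
    Matrix.reindex finSumFinEquiv finSumFinEquiv (fromBlocks a2 Y 0 a') with hM
  have hM11 : ∀ i j : Fin 2, M ⟨i, by omega⟩ ⟨j, by omega⟩ = a2 i j := by
    intro i j
    show fromBlocks a2 Y 0 a' (finSumFinEquiv.symm _) (finSumFinEquiv.symm _) = _
    rw [hl i i.2, hl j j.2]
    rfl
  have hM21 : ∀ (i : Fin m) (j : Fin 2), M ⟨2 + i, by omega⟩ ⟨j, by omega⟩ = 0 := by
    intro i j
    show fromBlocks a2 Y 0 a' (finSumFinEquiv.symm _) (finSumFinEquiv.symm _) = _
    rw [hr i i.2, hl j j.2]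
    rfl
  have hMA : ∀ v : Fin (2 + m) → K, v ⟨0, by omega⟩ = 0 → ∀ i : Fin (2 + m),
      M.mulVec v i = A.mulVec v i +
        if h : (i : ℕ) < 2 then ∑ j : Fin m, Y ⟨i, h⟩ j * v ⟨2 + j, by omega⟩ else 0 := by
    intro v hv i
    show ∑ j, M i j * v j = ∑ j, A i j * v j + _
    rw [Fin.sum_univ_add, Fin.sum_univ_add, Fin.sum_univ_two, Fin.sum_univ_two]
    have hv0 : v (Fin.castAdd m 0) = 0 := hv
    rw [hv0, mul_zero, mul_zero, zero_add, zero_add]
    rcases hcase i with ⟨i, rfl⟩ | ⟨i, rfl⟩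
    · rw [dif_pos i.2]
      have e1 : M ⟨i, by omega⟩ (Fin.castAdd m 1) = A ⟨i, by omega⟩ (Fin.castAdd m 1) := by
        have g1 : M ⟨i, by omega⟩ (Fin.castAdd m 1) = a2 i 1 := hM11 i 1
        have g2 : A ⟨i, by omega⟩ (Fin.castAdd m 1) = a1 i 1 := hA11 i 1
        rw [g1, g2]
        fin_cases i
        · exact a01.symm
        · exact a11.symm
      have e2 : ∀ j : Fin m, M ⟨i, by omega⟩ (Fin.natAdd 2 j) = Y i j := by
        intro j
        show fromBlocks a2 Y 0 a' (finSumFinEquiv.symm _) (finSumFinEquiv.symm ⟨2 + j, by omega⟩) = _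
        rw [hl i i.2, hr j j.2]
        rfl
      have e3 : ∀ j : Fin m, A ⟨i, by omega⟩ (Fin.natAdd 2 j) = 0 := by
        intro j
        show fromBlocks a1 0 0 a' (finSumFinEquiv.symm _) (finSumFinEquiv.symm ⟨2 + j, by omega⟩) = _
        rw [hl i i.2, hr j j.2]
        rfl
      rw [e1, add_assoc]
      congr 1
      rw [Finset.sum_eq_zero (f := fun j : Fin m => A ⟨i, by omega⟩ (Fin.natAdd 2 j) *
          v (Fin.natAdd 2 j)) (fun j _ => by rw [e3, zero_mul]), zero_add]
      exact Finset.sum_congr rfl fun j _ => by rw [e2]; rfl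
    · rw [dif_neg (by simp only; omega), add_zero]
      have e1 : M ⟨2 + i, by omega⟩ (Fin.castAdd m 1) = A ⟨2 + i, by omega⟩ (Fin.castAdd m 1) :=
        (hM21 i 1).trans (hA21 i 1).symm
      have e2 : ∀ j : Fin m, M ⟨2 + i, by omega⟩ (Fin.natAdd 2 j) =
          A ⟨2 + i, by omega⟩ (Fin.natAdd 2 j) := by
        intro j
        show fromBlocks a2 Y 0 a' (finSumFinEquiv.symm _) (finSumFinEquiv.symm ⟨2 + j, by omega⟩) =
          fromBlocks a1 0 0 a' (finSumFinEquiv.symm _) (finSumFinEquiv.symm ⟨2 + j, by omega⟩)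
        rw [hr i i.2, hr j j.2]
        rfl
      rw [e1]
      congr 1
      exact Finset.sum_congr rfl fun j _ => by rw [e2]
  -- columns 0 and 1
  have hcol : ∀ (B : Matrix (Fin (2 + m)) (Fin (2 + m)) K) (v : Fin (2 + m) → K)
      (x : Fin (2 + m)), (∀ y, v y = if y = x then 1 else 0) → ∀ i, B.mulVec v i = B i x := by
    intro B v x hv i
    show ∑ j, B i j * v j = _
    rw [Finset.sum_eq_single x]
    · rw [hv, if_pos rfl, mul_one]
    · intro y _ hy
      rw [hv, if_neg hy, mul_zero]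
    · exact fun h => absurd (Finset.mem_univ _) h
  have hP1 : ∀ i, P 1 i = A i ⟨1, by omega⟩ := by
    intro i
    show (ThU.SplitAux.St A (ThU.SplitAux.e0 (2 + m)) + e 0 : Fin (2 + m) → K) i = _
    rw [he2 0 (by norm_num), add_zero, ThU.SplitAux.St_apply]
    refine hcol A _ _ (fun y => ?_) i
    by_cases hy : 0 < (y : ℕ)
    · have hy2 : y = ⟨(y : ℕ) - 1 + 1, by omega⟩ := Fin.ext (by simp only; omega)
      rw [hy2, ThU.SplitAux.sh_succ]
      show (if ((y : ℕ) - 1) = 0 then (1 : K) else 0) = _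
      by_cases h3 : (y : ℕ) - 1 = 0
      · rw [if_pos h3, if_pos (Fin.ext (by simp only; omega))]
      · rw [if_neg h3, if_neg (fun h => h3 (by have := congrArg Fin.val h; simp only at this; omega))]
    · have hy2 : y = ⟨0, by omega⟩ := Fin.ext (by simp only; omega)
      rw [hy2, ThU.SplitAux.sh_zero, if_neg (fun h => by
        have := congrArg Fin.val h; simp only at this; omega)]
  have hM0 : M.mulVec (ThU.SplitAux.e0 (2 + m)) = d0 • ThU.SplitAux.e0 (2 + m) + κ • P 1 := by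
    funext i
    rw [hcol M _ ⟨0, by omega⟩ (fun y => by
      show (if (y : ℕ) = 0 then (1 : K) else 0) = _
      by_cases h3 : (y : ℕ) = 0
      · rw [if_pos h3, if_pos (Fin.ext h3)]
      · rw [if_neg h3, if_neg (fun h => h3 (congrArg Fin.val h))]) i]
    show _ = d0 * (if (i : ℕ) = 0 then (1 : K) else 0) + κ * P 1 i
    rw [hP1]
    rcases hcase i with ⟨i, rfl⟩ | ⟨i, rfl⟩
    · have g1 := hM11 i 0
      have g2 := hA11 i 1
      refine g1.trans ?_
      have g3 : A ⟨(i : ℕ), by omega⟩ ⟨1, by omega⟩ = a1 i 1 := g2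
      rw [g3]
      fin_cases i
      · show a2 0 0 = d0 * (if (0 : ℕ) = 0 then (1 : K) else 0) + κ * a1 0 1
        rw [if_pos rfl, a01, mul_one]
        have h5 : a2 1 1 * a2 0 0 = a2 1 1 * (d0 + κ * a2 0 1) := by
          linear_combination (-1 : K) * hd0δ + (-a2 0 1) * hκδ + (-1 : K) * hdet2
        exact mul_left_cancel₀ hδ h5
      · show a2 1 0 = d0 * (if (1 : ℕ) = 0 then (1 : K) else 0) + κ * a1 1 1
        rw [if_neg one_ne_zero, a11, hκδ]
        ring
    · have g1 := hM21 i 0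
      have g2 := hA21 i 1
      refine g1.trans ?_
      have g3 : A ⟨2 + (i : ℕ), by omega⟩ ⟨1, by omega⟩ = 0 := g2
      rw [g3, if_neg (by simp only; omega)]
      ring
  have hMk : ∀ k, k + 1 < 2 + m → M.mulVec (ThU.SplitAux.sh (2 + m) (P k)) = P (k + 1) := by
    intro k hk
    funext i
    rw [hMA _ (ThU.SplitAux.sh_zero _ _)]
    show A.mulVec (ThU.SplitAux.sh (2 + m) (P k)) i + _ = ThU.SplitAux.St A (P k) i + e k i
    congr 1
    by_cases hks : k + 1 < 2
    · rw [he2 k hks]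
      split_ifs with h
      · refine Finset.sum_eq_zero fun j _ => ?_
        rw [ThU.SplitAux.sh_dg (hP k (by omega)).1 _ (by simp only; omega), mul_zero]
      · rfl
    · obtain ⟨k', rfl⟩ : ∃ k', k = 1 + k' := ⟨k - 1, by omega⟩
      have hk' : k' < m := by omega
      split_ifs with h
      · have h3 := congrFun (congrFun hYR ⟨i, h⟩) ⟨k', hk'⟩
        rw [Matrix.mul_apply] at h3
        refine Eq.trans (Finset.sum_congr rfl fun j _ => ?_) h3
        congr 1
        have h4 := ThU.SplitAux.sh_succ (P (1 + k')) (i := 1 + j) (by omega)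
        have h5 : (⟨2 + j, by omega⟩ : Fin (2 + m)) = ⟨1 + j + 1, by omega⟩ :=
          Fin.ext (by simp only; omega)
        rw [h5, h4]
        rfl
      · exact (he1 _ i (by omega)).symm
  have hd0 : ThU.SplitAux.ell A (2 + m - 1) * d0 = 1 := by
    have h5 := (ThU.SplitAux.ell_prod (by omega) A).trans hprod
    have h6 : A ⟨0, by omega⟩ ⟨0, by omega⟩ = d0 := (hA11 0 0).trans a00
    rw [h6] at h5
    exact h5
  have hT : IsUnit (Matrix.of fun i k : Fin (2 + m) => P k i).det := by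
    refine ThU.SplitAux.upper_unit (fun i j hij => ?_) fun i => ?_
    · exact (hP j j.2).1 i hij
    · show P i i ≠ 0
      have := (hP i i.2).2
      rw [show (⟨(i : ℕ), i.2⟩ : Fin (2 + m)) = i from rfl] at this
      rw [this]
      exact ThU.SplitAux.ell_ne hA0 _
  refine ⟨Y, Matrix.of fun i k : Fin (2 + m) => P k i, hT, ?_⟩
  have hkey := Split2_key (by omega) hP hf hn he3 hd0 hM0 hMk
  have hB := ThU.SplitAux.comp_unit (K := K) (N := 2 + m) (by omega) h0
  rw [← hkey, Matrix.mul_assoc (M * ThU.comp f (2 + m)), Matrix.mul_nonsing_inv _ hT,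
    Matrix.mul_one, Matrix.mul_assoc, Matrix.mul_nonsing_inv _ hB, Matrix.mul_one]

/-- `split2` and `a2 Z - Z (diagonal d) = Y` (solve for each column of `Z`), `u = fromBlocks 1 Z 0 1`; see the end of `ThU.fact`.
The index type `κ` is arbitrary, reindex by `Fin m` first. -/
theorem fac3 {κ : Type*} [Fintype κ] [DecidableEq κ] [Nonempty κ] {k : ℕ} (e : Fin 2 ⊕ κ ≃ Fin k)
    (a2 : Matrix (Fin 2) (Fin 2) K) (hδ : a2 1 1 ≠ 0) (d : κ → K) (hd : a2.det * ∏ i, d i = 1)
    (hi : ∀ i, IsUnit (a2 - d i • (1 : Matrix (Fin 2) (Fin 2) K)).det)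
    {f : K[X]} (hf : f.Monic) (hn : f.natDegree = k) (h0 : f.coeff 0 ≠ 0) :
    ∃ S T : Matrix (Fin k) (Fin k) K, IsUnit S.det ∧ IsUnit T.det ∧
      S * Matrix.reindex e e (fromBlocks a2 0 0 (diagonal d)) * S⁻¹ =
        T * ThU.comp f k * T⁻¹ * (ThU.comp f k)⁻¹ := by
  obtain ⟨m, hm⟩ : ∃ m, m = Fintype.card κ := ⟨_, rfl⟩
  have hm0 : 0 < m := by rw [hm]; exact Fintype.card_pos
  have g : κ ≃ Fin m := (Fintype.equivFin κ).trans (finCongr hm.symm)
  have hcard : k = 2 + m := by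
    have h2 := Fintype.card_congr e
    rw [Fintype.card_sum, Fintype.card_fin, Fintype.card_fin, ← hm] at h2
    exact h2.symm
  subst hcard
  obtain ⟨d', hd'⟩ : ∃ d' : Fin m → K, ∀ i, d' i = d (g.symm i) := ⟨_, fun _ => rfl⟩
  have hprod : ∏ i, (diagonal d') i i = ∏ i, d i := by
    rw [← Equiv.prod_comp g.symm d]
    refine Finset.prod_congr rfl fun i _ => ?_
    rw [Matrix.diagonal_apply_eq, hd']
  obtain ⟨Y, T, hT, hYT⟩ := split2 hm0 a2 hδ (diagonal d')
    (fun i j hij => Matrix.diagonal_apply_ne _ (ne_of_gt hij)) (by rw [hprod]; exact hd) hf hn h0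
  -- the matrix `Z`
  obtain ⟨Z, hZ⟩ : ∃ Z : Matrix (Fin 2) (Fin m) K, a2 * Z + Y = Z * diagonal d' := by
    refine ⟨Matrix.of fun i j => -(((a2 - d' j • (1 : Matrix (Fin 2) (Fin 2) K))⁻¹ *ᵥ
      fun l => Y l j) i), ?_⟩
    ext i j
    have hu : IsUnit (a2 - d' j • (1 : Matrix (Fin 2) (Fin 2) K)).det := by
      rw [hd']
      exact hi _
    obtain ⟨x, hx⟩ : ∃ x : Fin 2 → K, x = (a2 - d' j • (1 : Matrix (Fin 2) (Fin 2) K))⁻¹ *ᵥ
      fun l => Y l j := ⟨_, rfl⟩
    have h3 : (a2 - d' j • (1 : Matrix (Fin 2) (Fin 2) K)) *ᵥ x = fun l => Y l j := by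
      rw [hx, Matrix.mulVec_mulVec, Matrix.mul_nonsing_inv _ hu, Matrix.one_mulVec]
    rw [Matrix.sub_mulVec, Matrix.smul_mulVec, Matrix.one_mulVec] at h3
    have h4 : (a2 *ᵥ x) i - d' j * x i = Y i j := congrFun h3 i
    rw [Matrix.add_apply, Matrix.mul_diagonal, Matrix.mul_apply]
    simp only [Matrix.of_apply, ← hx]
    rw [← h4, Matrix.mulVec, dotProduct]
    simp only [mul_neg, Finset.sum_neg_distrib]
    ring
  have hPP : (fromBlocks 1 Z 0 1 : Matrix (Fin 2 ⊕ Fin m) (Fin 2 ⊕ Fin m) K) *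
      fromBlocks 1 (-Z) 0 1 = 1 := by
    rw [Matrix.fromBlocks_multiply]
    simp
  have hPB : (fromBlocks 1 Z 0 1 : Matrix (Fin 2 ⊕ Fin m) (Fin 2 ⊕ Fin m) K) *
      fromBlocks a2 0 0 (diagonal d') = fromBlocks a2 Y 0 (diagonal d') * fromBlocks 1 Z 0 1 := by
    rw [Matrix.fromBlocks_multiply, Matrix.fromBlocks_multiply]
    simp [hZ]
  obtain ⟨e2, he2⟩ : ∃ e2 : Fin 2 ⊕ Fin m ≃ Fin (2 + m),
      e2 = (Equiv.sumCongr (Equiv.refl _) g).symm.trans e := ⟨_, rfl⟩
  have hre : Matrix.reindex e e (fromBlocks a2 0 0 (diagonal d)) =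
      Matrix.reindex e2 e2 (fromBlocks a2 0 0 (diagonal d')) := by
    ext x y
    obtain ⟨x, rfl⟩ := e.surjective x
    obtain ⟨y, rfl⟩ := e.surjective y
    rw [he2]
    simp only [Matrix.reindex_apply, Matrix.submatrix_apply, Equiv.symm_apply_apply,
      Equiv.symm_trans_apply, Equiv.symm_symm]
    rcases x with x | x <;> rcases y with y | y
    · rfl
    · rfl
    · rfl
    · show (diagonal d) x y = (diagonal d') (g x) (g y)
      by_cases hxy : x = y
      · subst hxy
        rw [Matrix.diagonal_apply_eq, Matrix.diagonal_apply_eq, hd', g.symm_apply_apply]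
      · rw [Matrix.diagonal_apply_ne _ hxy, Matrix.diagonal_apply_ne _ (fun h => hxy (g.injective h))]
  obtain ⟨S, hS⟩ : ∃ S : Matrix (Fin (2 + m)) (Fin (2 + m)) K,
      S = (fromBlocks 1 Z 0 1 : Matrix (Fin 2 ⊕ Fin m) (Fin 2 ⊕ Fin m) K).submatrix
        finSumFinEquiv.symm e2.symm := ⟨_, rfl⟩
  have hSu : IsUnit S.det := by
    have h2 : S * (fromBlocks 1 (-Z) 0 1 : Matrix (Fin 2 ⊕ Fin m) (Fin 2 ⊕ Fin m) K).submatrix
        e2.symm finSumFinEquiv.symm = 1 := by
      rw [hS, Matrix.submatrix_mul_equiv, hPP, Matrix.submatrix_one_equiv]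
    have h3 := congrArg Matrix.det h2
    rw [Matrix.det_mul, Matrix.det_one] at h3
    exact IsUnit.of_mul_eq_one _ h3
  have hSA : S * Matrix.reindex e2 e2 (fromBlocks a2 0 0 (diagonal d')) =
      (fromBlocks a2 Y 0 (diagonal d')).reindex finSumFinEquiv finSumFinEquiv * S := by
    rw [hS, Matrix.reindex_apply, Matrix.reindex_apply, Matrix.submatrix_mul_equiv,
      Matrix.submatrix_mul_equiv, hPB]
  refine ⟨S, T, hSu, hT, ?_⟩
  rw [hre, hSA, Matrix.mul_assoc, Matrix.mul_nonsing_inv _ hSu, Matrix.mul_one, hYT]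

end ThS
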