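import Pool.Agent.ThS.Spa

/-! # Module Trans: transvections -/

namespace ThS
open Module

variable {K V : Type*} [Field K] [AddCommGroup V] [Module K V] (q : AF K V)
variable {U : Submodule K V} {G : V →ₗ[K] V}

/-- `G x = x + c h u x u` on `U`.  If `u = 0`: any system (`hyp_ex`).  Otherwise `n ≠ 0`; take the system
`Fin.cons u v`, `Fin.cons u' v'` with a partner `u'` and a system of `perp2 U u u'` (`hyp_ex`, `hyp_cons`): `G` fixes `u` and all `v j`. -/
theorem trans_sys [FiniteDimensional K V] {n : ℕ} (hU : q.ND U) (hf : finrank K U = 2 * n)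
    (h : q.Trv U G 1) : q.Sys U G (1 : Matrix (Fin n) (Fin n) K) := by
  obtain ⟨u, hu, c, hG⟩ := h
  by_cases hu0 : u = 0
  · obtain ⟨w, w', hw⟩ := hyp_ex q hU hf
    refine ⟨w, w', hw, fun i j => ?_⟩
    rw [hG _ (hw.mem j), hu0, smul_zero, add_zero, one_smul, hw.dual, Matrix.one_apply]
  · have hn : n ≠ 0 := by
      intro hn
      rw [hn, mul_zero] at hf
      have h1 : U = ⊥ := Submodule.finrank_eq_zero.1 hf
      rw [h1, Submodule.mem_bot] at hu
      exact hu0 hu
    obtain ⟨m, rfl⟩ := Nat.exists_eq_succ_of_ne_zero hn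
    obtain ⟨u', hu', h1⟩ := partner q hU hu hu0
    have h1' : q.h u u' ≠ 0 := by
      rw [q.symm u' u, h1]
      exact neg_ne_zero.2 one_ne_zero
    have hfr := perp2_finrank q hu hu' h1'
    obtain ⟨v, v', hv⟩ := hyp_ex q (n := m) (perp2_ND q hU hu hu' h1') (by
      rw [Nat.succ_eq_add_one] at hf
      omega)
    have hsys := hyp_cons q hu hu' h1 hv
    refine ⟨_, _, hsys, fun i j => ?_⟩
    have h2 : q.h u ((Fin.cons u v : Fin (m + 1) → V) j) = 0 := hsys.iso 0 j
    rw [hG _ (hsys.mem j), h2, mul_zero, zero_smul, add_zero, one_smul, hsys.dual, Matrix.one_apply]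

end ThS
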