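import Pool.Agent.ThS.TriEx
import Pool.Agent.ThS.Gen
import Pool.Agent.ThS.Trans
import Pool.Agent.ThS.Inv
import Pool.Agent.ThS.Split2
import Pool.Agent.ThS.Frm
import Pool.Agent.ThQ.Seed
import Pool.Agent.ThU.Fact

/-! # Module Main -/

namespace ThS
open Matrix Polynomial Module

variable {K : Type*} [Field K] {n : ℕ}

/-- the factorization property of a block -/
def Fac (f : K[X]) (n : ℕ) (a : Matrix (Fin n) (Fin n) K) : Prop :=
  ∃ S T : Matrix (Fin n) (Fin n) K, IsUnit S.det ∧ IsUnit T.det ∧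
    S * a * S⁻¹ = T * ThU.comp f n * T⁻¹ * (ThU.comp f n)⁻¹

theorem fac_one {f : K[X]} (hC : IsUnit (ThU.comp f n).det) :
    Fac f n (1 : Matrix (Fin n) (Fin n) K) := by
  refine ⟨1, 1, by simp, by simp, ?_⟩
  rw [inv_one, Matrix.mul_one, Matrix.mul_one, Matrix.mul_one, Matrix.one_mul, mul_nonsing_inv _ hC]

theorem Fac.unit {f : K[X]} {a : Matrix (Fin n) (Fin n) K} (hC : IsUnit (ThU.comp f n).det)
    (h : Fac f n a) : IsUnit a.det := by
  obtain ⟨S, T, hS, hT, h⟩ := h
  have h1 := congrArg Matrix.det h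
  have e : (S * a * S⁻¹).det = a.det := by
    rw [det_mul, det_mul, mul_comm S.det, mul_assoc, ← det_mul, mul_nonsing_inv _ hS, det_one, mul_one]
  rw [e] at h1
  rw [h1, det_mul, det_mul, det_mul]
  exact ((hT.mul hC).mul (isUnit_nonsing_inv_det _ hT)).mul (isUnit_nonsing_inv_det _ hC)

/-- blocks with two eigenvalues -/
theorem fac_diag {f : K[X]} (hf : f.Monic) (hn : f.natDegree = n) (h0 : f.coeff 0 ≠ 0) {r s : ℕ}
    (e : Fin r ⊕ Fin s ≃ Fin n) {d1 d2 : K} (hd : d1 ≠ d2) (hr : 0 < r) (hs : 0 < s)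
    (hp : d1 ^ r * d2 ^ s = 1) :
    Fac f n (Matrix.reindex e e (diagonal (Sum.elim (fun _ => d1) (fun _ => d2)))) := by
  have ha : Matrix.reindex e e (diagonal (Sum.elim (fun _ => d1) (fun _ => d2))) =
      diagonal (fun i => Sum.elim (fun _ : Fin r => d1) (fun _ : Fin s => d2) (e.symm i)) := by
    rw [reindex_apply, submatrix_diagonal_equiv]
    rfl
  rw [ha]
  refine ThU.fact hf hn h0 _ (fun i j hij => diagonal_apply_ne _ (ne_of_gt hij)) ?_
    ⟨e (Sum.inl ⟨0, hr⟩), e (Sum.inr ⟨0, hs⟩), ?_⟩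
  · simp only [diagonal_apply_eq]
    rw [Equiv.prod_comp e.symm, Fintype.prod_sum_type]
    simp only [Sum.elim_inl, Sum.elim_inr, Finset.prod_const, Finset.card_univ, Fintype.card_fin]
    exact hp
  · rw [diagonal_apply_eq, diagonal_apply_eq, e.symm_apply_apply, e.symm_apply_apply]
    exact hd

theorem prod_of_sysS [Finite K] {f : K[X]} {B : (Matrix (Fin n) (Fin n) K)ˣ}
    (hf : (B : Matrix (Fin n) (Fin n) K) = ThU.comp f n) (hB : ThQ.SeedQ B)
    (g : symplecticGroup (Fin n) K) {a : Matrix (Fin n) (Fin n) K}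
    (h : (hS K n).Sys ⊤ (Matrix.mulVecLin (g : Matrix (Fin n ⊕ Fin n) (Fin n ⊕ Fin n) K)) a)
    (hfac : Fac f n a) : ∃ r r' : symplecticGroup (Fin n) K,
      g = r * mS K n B * r⁻¹ * (r' * mS K n B * r'⁻¹) := by
  have hC : IsUnit (ThU.comp f n).det := by
    rw [← hf]
    exact (Matrix.isUnit_iff_isUnit_det _).1 B.isUnit
  obtain ⟨P, hP⟩ := frameS g h
  have hau := hfac.unit hC
  set u : (Matrix (Fin n) (Fin n) K)ˣ := a.nonsingInvUnit hau with hu
  have hua : (u : Matrix (Fin n) (Fin n) K) = a := rfl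
  obtain ⟨c, hc, b, hb, hg⟩ := lduS (P⁻¹ * g * P) (a := u) hP
  obtain ⟨S, T, hS, hT, hST⟩ := hfac
  rw [← hua, ← hf] at hST
  obtain ⟨C, d, hCC, hd⟩ := hB.root
  have hd' : (d : Matrix (Fin n) (Fin n) K) * B = (B : Matrix (Fin n) (Fin n) K)ᵀ * d := by
    rw [← hCC, Units.val_mul, transpose_mul, ← Matrix.mul_assoc, hd, Matrix.mul_assoc, hd,
      ← Matrix.mul_assoc]
  obtain ⟨r, r', hr⟩ := main_blockS hB.syl hd' c hc b hb hS hT hST
  rw [hr] at hg
  refine ⟨P * r, P * r', ?_⟩
  have e : g = P * (P⁻¹ * g * P) * P⁻¹ := by group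
  rw [e, hg]
  group

/-- the central element `-1` -/
def negS (K : Type*) [Field K] (n : ℕ) : symplecticGroup (Fin n) K :=
  ⟨-1, SymplecticGroup.neg_mem (Submonoid.one_mem _)⟩

theorem negS_comm (y : symplecticGroup (Fin n) K) : negS K n * y = y * negS K n := by
  apply Subtype.ext
  show -1 * (y : Matrix (Fin n ⊕ Fin n) (Fin n ⊕ Fin n) K) = y * -1
  rw [Matrix.neg_mul, Matrix.mul_neg, Matrix.one_mul, Matrix.mul_one]

theorem negS_sq : negS K n * negS K n = 1 := by
  apply Subtype.ext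
  show -1 * -1 = (1 : Matrix (Fin n ⊕ Fin n) (Fin n ⊕ Fin n) K)
  rw [neg_mul_neg, Matrix.one_mul]

theorem negS_mul (g : symplecticGroup (Fin n) K) (x : Fin n ⊕ Fin n → K) :
    Matrix.mulVecLin ((negS K n * g : symplecticGroup (Fin n) K) :
      Matrix (Fin n ⊕ Fin n) (Fin n ⊕ Fin n) K) x =
        -Matrix.mulVecLin (g : Matrix (Fin n ⊕ Fin n) (Fin n ⊕ Fin n) K) x := by
  show (-1 * (g : Matrix (Fin n ⊕ Fin n) (Fin n ⊕ Fin n) K)) *ᵥ x = -((g : Matrix _ _ K) *ᵥ x)
  rw [Matrix.neg_mul, Matrix.one_mul, neg_mulVec]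

/-- the block of an isometry, up to sign -/
theorem blocks (h2 : (2 : K) ≠ 0) (hn : 3 ≤ n) {f : K[X]} (hfm : f.Monic) (hfn : f.natDegree = n)
    (hf0 : f.coeff 0 ≠ 0) (hC : IsUnit (ThU.comp f n).det) (g : symplecticGroup (Fin n) K) :
    ∃ a : Matrix (Fin n) (Fin n) K, Fac f n a ∧
      ((hS K n).Sys ⊤ (Matrix.mulVecLin (g : Matrix (Fin n ⊕ Fin n) (Fin n ⊕ Fin n) K)) a ∨
      (hS K n).Sys ⊤ (Matrix.mulVecLin ((negS K n * g : symplecticGroup (Fin n) K) :
        Matrix (Fin n ⊕ Fin n) (Fin n ⊕ Fin n) K)) a) := by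
  set G := Matrix.mulVecLin (g : Matrix (Fin n ⊕ Fin n) (Fin n ⊕ Fin n) K) with hG
  have hGi : (hS K n).Iso ⊤ G := sp_iso g
  have hV : (hS K n).ND ⊤ := hS_ND
  have hfr : finrank K (⊤ : Submodule K (Fin n ⊕ Fin n → K)) = 2 * n := by
    rw [finrank_top, Module.finrank_fintype_fun_eq_card, Fintype.card_sum, Fintype.card_fin]
    ring
  have hneg := negS_mul g
  by_cases hw : ∃ w ∈ (⊤ : Submodule K (Fin n ⊕ Fin n → K)), (hS K n).h w (G w) ≠ 0
  · by_cases ht : ∃ ε : K, ε ^ 2 = 1 ∧ (hS K n).Trv ⊤ G ε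
    · -- transvections
      obtain ⟨ε, hε, ht⟩ := ht
      refine ⟨1, fac_one hC, ?_⟩
      rcases mul_self_eq_one_iff.1 ((sq ε).symm.trans hε) with rfl | rfl
      · exact Or.inl (trans_sys _ hV hfr ht)
      · refine Or.inr (trans_sys _ hV hfr ?_)
        obtain ⟨u, hu, c, h⟩ := ht
        refine ⟨u, hu, -c, fun x hx => ?_⟩
        rw [hneg, h x hx]
        module
    · push Not at ht
      obtain ⟨m, rfl⟩ : ∃ m, n = m + 3 := ⟨n - 3, by omega⟩
      obtain ⟨w, hw, hz, hs⟩ := gen (hS K (m + 3)) hV hfr hGi ht hw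
      have h1 := perp2_ND (hS K (m + 3)) hV hw (hGi.1 w hw) hz
      have h2' := perp2_finrank (hS K (m + 3)) hw (hGi.1 w hw) hz
      obtain ⟨l, hl, ⟨i, j, hij⟩, hT⟩ := tri_ne (hS K (m + 3)) h2 (n := m) h1
        (by rw [hfr] at h2'; omega) (iso_g1 _ hGi hw hz) hs
      have hl0 : ∏ i, l i ≠ 0 := Finset.prod_ne_zero_iff.2 fun i _ => hl i
      obtain ⟨v, v', hv, ha, hd⟩ := stepI (hS K (m + 3)) hGi hw hz hT (∏ i, l i)⁻¹
      refine ⟨Matrix.of fun i j => (hS K (m + 3)).h (v' i) (G (v j)), ?_, Or.inl ⟨v, v', hv,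
        fun i j => rfl⟩⟩
      refine ThU.fact hfm hfn hf0 _ (fun i j hij => ha i j hij) ?_ ⟨i.succ, j.succ, ?_⟩
      · simp only [of_apply, hd]
        rw [Fin.prod_univ_succ, Fin.cons_zero]
        simp only [Fin.cons_succ]
        exact inv_mul_cancel₀ hl0
      · rw [of_apply, of_apply, hd, hd, Fin.cons_succ, Fin.cons_succ]
        exact hij
  · -- involutions
    push Not at hw
    obtain ⟨r, s, w, w', v, v', hrs, hh, h1, h1', h3, h3'⟩ := inv_sys _ h2 hV hGi hw
    rw [hfr] at hrs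
    have hrs' : r + s = n := by omega
    let e : Fin r ⊕ Fin s ≃ Fin n := finSumFinEquiv.trans (finCongr hrs')
    -- the two diagonal blocks
    have hS1 : (hS K n).Sys ⊤ G (diagonal (Sum.elim (fun _ : Fin r => (1 : K)) fun _ : Fin s => -1)) := by
      refine ⟨Sum.elim w v, Sum.elim w' v', hh, fun i j => ?_⟩
      rcases j with j | j
      · rw [Sum.elim_inl, h1, ← Sum.elim_inl w v j, hh.dual, diagonal_apply]
        by_cases hij : i = Sum.inl j
        · rw [if_pos hij, if_pos hij, hij, Sum.elim_inl]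
        · rw [if_neg hij, if_neg hij]
      · rw [Sum.elim_inr, h3, map_neg, ← Sum.elim_inr w v j, hh.dual, diagonal_apply]
        by_cases hij : i = Sum.inr j
        · rw [if_pos hij, if_pos hij, hij, Sum.elim_inr]
        · rw [if_neg hij, if_neg hij, neg_zero]
    have hS2 : (hS K n).Sys ⊤ (Matrix.mulVecLin ((negS K n * g : symplecticGroup (Fin n) K) :
        Matrix (Fin n ⊕ Fin n) (Fin n ⊕ Fin n) K))
        (diagonal (Sum.elim (fun _ : Fin r => (-1 : K)) fun _ : Fin s => 1)) := by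
      refine ⟨Sum.elim w v, Sum.elim w' v', hh, fun i j => ?_⟩
      rw [hneg, map_neg]
      rcases j with j | j
      · show -(hS K n).h _ (G (Sum.elim w v (Sum.inl j))) = _
        rw [Sum.elim_inl, h1, ← Sum.elim_inl w v j, hh.dual, diagonal_apply]
        by_cases hij : i = Sum.inl j
        · rw [if_pos hij, if_pos hij, hij, Sum.elim_inl]
        · rw [if_neg hij, if_neg hij, neg_zero]
      · show -(hS K n).h _ (G (Sum.elim w v (Sum.inr j))) = _
        rw [Sum.elim_inr, h3, map_neg, neg_neg, ← Sum.elim_inr w v j, hh.dual, diagonal_apply]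
        by_cases hij : i = Sum.inr j
        · rw [if_pos hij, if_pos hij, hij, Sum.elim_inr]
        · rw [if_neg hij, if_neg hij]
    have hone : ∀ d : Fin r ⊕ Fin s → K, (∀ i, d i = 1) → Matrix.reindex e e (diagonal d) = 1 :=
      fun d hd => by
        have : d = 1 := funext hd
        rw [this, reindex_apply, submatrix_diagonal_equiv]
        exact diagonal_one
    have hne : (1 : K) ≠ -1 := fun h => h2 (by linear_combination h)
    by_cases hs0 : s = 0
    · subst hs0
      refine ⟨_, ?_, Or.inl (hS1.reindex e)⟩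
      rw [hone _ (fun i => by rcases i with i | i; · rfl
                              · exact i.elim0)]
      exact fac_one hC
    by_cases hr0 : r = 0
    · subst hr0
      refine ⟨_, ?_, Or.inr (hS2.reindex e)⟩
      rw [hone _ (fun i => by rcases i with i | i; · exact i.elim0
                              · rfl)]
      exact fac_one hC
    rcases Nat.even_or_odd s with hs | hs
    · refine ⟨_, ?_, Or.inl (hS1.reindex e)⟩
      exact fac_diag hfm hfn hf0 e hne (by omega) (by omega) (by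
        rw [one_pow, hs.neg_one_pow, one_mul])
    rcases Nat.even_or_odd r with hr | hr
    · refine ⟨_, ?_, Or.inr (hS2.reindex e)⟩
      exact fac_diag hfm hfn hf0 e hne.symm (by omega) (by omega) (by
        rw [one_pow, hr.neg_one_pow, one_mul])
    · obtain ⟨r', rfl⟩ : ∃ r', r = r' + 1 := ⟨r - 1, by omega⟩
      obtain ⟨s', rfl⟩ : ∃ s', s = s' + 1 := ⟨s - 1, by omega⟩
      have hs' : Even s' := by
        obtain ⟨k, hk⟩ := hs
        exact ⟨k, by omega⟩
      let e' : Fin 2 ⊕ (Fin r' ⊕ Fin s') ≃ Fin n :=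
        (Equiv.sumCongr (Equiv.refl _) finSumFinEquiv).trans (finSumFinEquiv.trans (finCongr (by omega)))
      have hne' : Nonempty (Fin r' ⊕ Fin s') := by
        by_cases hr' : 0 < r'
        · exact ⟨Sum.inl ⟨0, hr'⟩⟩
        · exact ⟨Sum.inr ⟨0, by omega⟩⟩
      refine ⟨_, ?_, Or.inl ((inv_odd (hS K n) h2 hh h1 h1' h3 h3').reindex e')⟩
      have hda : (a2 K).det = 1 := by
        rw [a2, det_fin_two_of]
        ring
      obtain ⟨S, T, h⟩ := fac3 e' (a2 K) (by
        show (1 : K) ≠ 0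
        exact one_ne_zero) (Sum.elim (fun _ => 1) fun _ => -1) (by
          rw [hda, one_mul, Fintype.prod_sum_type]
          simp only [Sum.elim_inl, Sum.elim_inr, Finset.prod_const, Finset.card_univ, Fintype.card_fin,
            one_pow, one_mul]
          exact hs'.neg_one_pow) (fun i => by
          have e1 : ∀ d : K, (a2 K - d • (1 : Matrix (Fin 2) (Fin 2) K)).det = (-1 - d) * (1 - d) + 2 := by
            intro d
            rw [det_fin_two]
            simp only [a2, Matrix.sub_apply, Matrix.smul_apply, of_apply, cons_val', cons_val_zero,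
              cons_val_one, one_apply_eq, Matrix.one_apply_ne (zero_ne_one : (0 : Fin 2) ≠ 1),
              Matrix.one_apply_ne (one_ne_zero : (1 : Fin 2) ≠ 0), smul_eq_mul]
            ring
          rw [e1, isUnit_iff_ne_zero]
          rcases i with i | i
          · rw [Sum.elim_inl]
            intro h
            exact h2 (by linear_combination h)
          · rw [Sum.elim_inr]
            intro h
            exact h2 (by linear_combination h)) hfm hfn hf0
      exact ⟨S, T, h⟩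

/-- The main theorem. -/
theorem main_S [Finite K] (h2 : (2 : K) ≠ 0) (hn : 3 ≤ n) :
    ∃ x : symplecticGroup (Fin n) K, ∀ g : symplecticGroup (Fin n) K,
      ∃ z : symplecticGroup (Fin n) K, (∀ y : symplecticGroup (Fin n) K, z * y = y * z) ∧
        ∃ r r' : symplecticGroup (Fin n) K, g = z * (r * x * r⁻¹ * (r' * x * r'⁻¹)) := by
  obtain ⟨f, B, hfm, hfi, hfn, hf0, hfB, hB⟩ := ThQ.seed_ex (K := K) hn
  have hC : IsUnit (ThU.comp f n).det := by
    rw [← hfB]
    exact (Matrix.isUnit_iff_isUnit_det _).1 B.isUnit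
  refine ⟨mS K n B, fun g => ?_⟩
  obtain ⟨a, hfac, ha | ha⟩ := blocks h2 hn hfm hfn hf0 hC g
  · obtain ⟨r, r', h⟩ := prod_of_sysS hfB hB g ha hfac
    exact ⟨1, fun y => by rw [one_mul, mul_one], r, r', by rw [one_mul]; exact h⟩
  · obtain ⟨r, r', h⟩ := prod_of_sysS hfB hB _ ha hfac
    refine ⟨negS K n, negS_comm, r, r', ?_⟩
    rw [← h, ← mul_assoc, negS_sq, one_mul]

/-- The conclusion for the quotient by the center. -/
theorem quotS [Finite K] (h2 : (2 : K) ≠ 0) (hn : 3 ≤ n) :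
    ∃ g : symplecticGroup (Fin n) K ⧸ Subgroup.center (symplecticGroup (Fin n) K),
      ∀ z : symplecticGroup (Fin n) K ⧸ Subgroup.center (symplecticGroup (Fin n) K),
        ∃ x y : symplecticGroup (Fin n) K ⧸ Subgroup.center (symplecticGroup (Fin n) K),
          IsConj g x ∧ IsConj g y ∧ x * y = z := by
  obtain ⟨x, h⟩ := main_S (K := K) h2 hn
  refine ⟨QuotientGroup.mk x, fun g => ?_⟩
  obtain ⟨g, rfl⟩ := QuotientGroup.mk_surjective g
  obtain ⟨z, hz, r, r', hg⟩ := h g
  refine ⟨QuotientGroup.mk (r * x * r⁻¹), QuotientGroup.mk (r' * x * r'⁻¹), ?_, ?_, ?_⟩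
  · rw [isConj_iff]
    exact ⟨QuotientGroup.mk r, rfl⟩
  · rw [isConj_iff]
    exact ⟨QuotientGroup.mk r', rfl⟩
  · have hz' : z ∈ Subgroup.center (symplecticGroup (Fin n) K) := by
      rw [Subgroup.mem_center_iff]
      intro y
      exact (hz y).symm
    rw [← QuotientGroup.mk_mul]
    refine QuotientGroup.eq.2 ?_
    rw [hg, hz, inv_mul_cancel_left]
    exact hz'

end ThS
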