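import Pool.Agent.ThS.Spa

/-! # Module StepI: the step with a vector `w` with `h w (G w) ≠ 0` -/

namespace ThS
open Module

variable {K V : Type*} [Field K] [AddCommGroup V] [Module K V] (q : AF K V)
variable {U : Submodule K V} {G : V →ₗ[K] V} {w : V}

/-- `x ∈ U`, `h w x = h (G w) x = 0`: `g1 x = G x - β x • G w` with `β x = h w (G x) / z`, `z = h w (G w)`.
`h w (g1 x) = 0`, `h (G w) (g1 x) = h (G w) (G x) = h w x = 0`;
`h (g1 x) (g1 y) = h (G x) (G y) - β y h (G x) (G w) - β x h (G w) (G y) = h x y`. -/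
theorem iso_g1 (hG : q.Iso U G) (hw : w ∈ U) (hz : q.h w (G w) ≠ 0) :
    q.Iso (q.perp2 U w (G w)) (q.g1 G w) := by
  have hGw : G w ∈ U := hG.1 w hw
  refine ⟨fun x hx => ?_, fun x hx y hy => ?_⟩
  · rw [q.mem_perp2] at hx ⊢
    obtain ⟨h1, h2, h3⟩ := hx
    refine ⟨?_, ?_, ?_⟩
    · rw [q.g1_apply]
      exact U.sub_mem (hG.1 x h1) (U.smul_mem _ hGw)
    · rw [q.g1_apply, map_sub, map_smul, smul_eq_mul, mul_assoc, inv_mul_cancel₀ hz, mul_one,
        sub_self]
    · rw [q.g1_apply, map_sub, map_smul, smul_eq_mul, hG.2 w hw x h1, q.alt, h2, mul_zero, sub_zero]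
  · rw [q.mem_perp2] at hx hy
    obtain ⟨h1, h2, h3⟩ := hx
    obtain ⟨k1, k2, k3⟩ := hy
    have h4 : q.h x w = 0 := q.swap_zero h2
    rw [q.g1_apply, q.g1_apply]
    simp only [map_sub, map_smul, smul_eq_mul, q.sub_left, q.smul_left, hG.2 x h1 y k1,
      hG.2 x h1 w hw, hG.2 w hw y k1, q.alt, h4, k2]
    ring

/-- The step: `z = h w (G w)`, `w' = -z⁻¹ G w + (c / z) w`.  `h w' w = 1`, `perp2 U w w' = perp2 U w (G w)`, so
`Fin.cons w v`, `Fin.cons w' v'` is a hyperbolic system (`hyp_cons`); `h w' (G w) = c`; `h (v' i) (G w) = 0`;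
`h (v' i) (G (v j)) = h (v' i) (g1 (v j))` as `G x = g1 x + β x • G w`. -/
theorem stepI (hG : q.Iso U G) (hw : w ∈ U) (hz : q.h w (G w) ≠ 0) {n : ℕ} {l : Fin n → K}
    (h : q.Tri (q.perp2 U w (G w)) (q.g1 G w) n l) (c : K) : q.Tri U G (n + 1) (Fin.cons c l) := by
  obtain ⟨v, v', hv, ht, hd⟩ := h
  have hGw : G w ∈ U := hG.1 w hw
  obtain ⟨w', hw'⟩ : ∃ w', w' = (c * (q.h w (G w))⁻¹) • w - (q.h w (G w))⁻¹ • G w := ⟨_, rfl⟩
  have hw'U : w' ∈ U := by
    rw [hw']
    exact U.sub_mem (U.smul_mem _ hw) (U.smul_mem _ hGw)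
  have h1 : q.h w' w = 1 := by
    rw [hw', q.sub_left, q.smul_left, q.smul_left, q.alt, q.symm w (G w), mul_neg,
      inv_mul_cancel₀ hz]
    ring
  have hwx : ∀ x, q.h w x = 0 → q.h w' x = -((q.h w (G w))⁻¹ * q.h (G w) x) := by
    intro x hx
    rw [hw', q.sub_left, q.smul_left, q.smul_left, hx]
    ring
  have hperp : q.perp2 U w w' = q.perp2 U w (G w) := by
    ext x
    rw [q.mem_perp2, q.mem_perp2]
    refine and_congr_right fun _ => and_congr_right fun hx => ?_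
    rw [hwx x hx, neg_eq_zero, mul_eq_zero]
    exact ⟨fun h => h.resolve_left (inv_ne_zero hz), fun h => Or.inr h⟩
  have m' := fun i => (q.mem_perp2).1 (hv.mem' i)
  have s2' : ∀ i, q.h (v' i) (G w) = 0 := fun i => q.swap_zero (m' i).2.2
  have key : ∀ i j, q.h (v' i) (q.g1 G w (v j)) = q.h (v' i) (G (v j)) := fun i j => by
    rw [q.g1_apply, map_sub, map_smul, s2' i, smul_zero, sub_zero]
  refine ⟨_, _, hyp_cons q hw hw'U h1 (by rw [hperp]; exact hv), ?_, ?_⟩
  · intro i j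
    refine Fin.cases ?_ (fun i => ?_) i <;> refine Fin.cases ?_ (fun j => ?_) j
    · intro hij
      exact absurd hij (lt_irrefl _)
    · intro hij
      exact absurd hij (Fin.not_lt_zero _)
    · intro _
      exact s2' i
    · intro hij
      have h3 := ht i j (Fin.succ_lt_succ_iff.1 hij)
      rw [key] at h3
      exact h3
  · intro i
    refine Fin.cases ?_ (fun i => ?_) i
    · rw [Fin.cons_zero, Fin.cons_zero, Fin.cons_zero, hw', q.sub_left, q.smul_left, q.smul_left,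
        q.alt, mul_zero, sub_zero, mul_assoc, inv_mul_cancel₀ hz, mul_one]
    · have h3 := hd i
      rw [key] at h3
      exact h3

end ThS
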