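import Pool.Agent.ThS.Spa

/-! # Module StepII: the step with an eigenvector -/

namespace ThS
open Module

variable {K V : Type*} [Field K] [AddCommGroup V] [Module K V] (q : AF K V)
variable {U : Submodule K V} {G : V →ₗ[K] V} {w w' : V}

/-- `x ∈ U`, `h w x = h w' x = 0`: `g2 x = G x - h w' (G x) • w`; `h w (G x) = c⁻¹ h (G w) (G x) = c⁻¹ h w x = 0`, so
`h w (g2 x) = 0`, `h w' (g2 x) = 0`, and `h (g2 x) (g2 y) = h (G x) (G y)`. -/
theorem iso_g2 (hG : q.Iso U G) (hw : w ∈ U) (hw' : w' ∈ U) (h1 : q.h w' w = 1) {c : K}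
    (hc : c ≠ 0) (he : G w = c • w) : q.Iso (q.perp2 U w w') (q.g2 G w w') := by
  have hp : ∀ x ∈ U, q.h w x = 0 → q.h w (G x) = 0 := by
    intro x hx h
    have h2 := hG.2 w hw x hx
    rw [he, q.smul_left, h] at h2
    exact (mul_eq_zero.1 h2).resolve_left hc
  constructor
  · intro x hx
    rw [q.mem_perp2] at hx ⊢
    have h2 := hp x hx.1 hx.2.1
    refine ⟨?_, ?_, ?_⟩
    · rw [q.g2_apply]
      exact U.sub_mem (hG.1 x hx.1) (U.smul_mem _ hw)
    · rw [q.g2_apply, map_sub, map_smul, q.alt, h2, smul_zero, sub_zero]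
    · rw [q.g2_apply, map_sub, map_smul, h1, smul_eq_mul, mul_one, sub_self]
  · intro x hx y hy
    rw [q.mem_perp2] at hx hy
    have h2 := hp x hx.1 hx.2.1
    have h3 := hp y hy.1 hy.2.1
    rw [q.g2_apply, q.g2_apply, q.sub_left, map_sub, map_sub, q.smul_left, q.smul_left, map_smul,
      map_smul, q.alt, h3, q.swap_zero h2, hG.2 x hx.1 y hy.1]
    simp

/-- the system `Fin.cons w v`, `Fin.cons w' v'` (`hyp_cons`) -/
theorem stepII (hG : q.Iso U G) (hw : w ∈ U) (hw' : w' ∈ U) (h1 : q.h w' w = 1) {c : K}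
    (hc : c ≠ 0) (he : G w = c • w) {n : ℕ} {l : Fin n → K}
    (h : q.Tri (q.perp2 U w w') (q.g2 G w w') n l) : q.Tri U G (n + 1) (Fin.cons c l) := by
  obtain ⟨v, v', hv, ht, hd⟩ := h
  have m' := fun i => (q.mem_perp2).1 (hv.mem' i)
  have s2' : ∀ i, q.h (v' i) w = 0 := fun i => q.swap_zero (m' i).2.1
  have key : ∀ i j, q.h (v' i) (q.g2 G w w' (v j)) = q.h (v' i) (G (v j)) := fun i j => by
    rw [q.g2_apply, map_sub, map_smul, s2' i, smul_zero, sub_zero]
  refine ⟨_, _, hyp_cons q hw hw' h1 hv, ?_, ?_⟩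
  · intro i j
    refine Fin.cases ?_ (fun i => ?_) i <;> refine Fin.cases ?_ (fun j => ?_) j
    · intro hij
      exact absurd hij (lt_irrefl _)
    · intro hij
      exact absurd hij (Fin.not_lt_zero _)
    · intro _
      rw [Fin.cons_zero, Fin.cons_succ, he, map_smul, s2' i, smul_zero]
    · intro hij
      have h3 := ht i j (Fin.succ_lt_succ_iff.1 hij)
      rw [key] at h3
      exact h3
  · intro i
    refine Fin.cases ?_ (fun i => ?_) i
    · rw [Fin.cons_zero, Fin.cons_zero, Fin.cons_zero, he, map_smul, h1, smul_eq_mul, mul_one]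
    · have h3 := hd i
      rw [key] at h3
      exact h3

end ThS
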