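import Pool.Agent.ThS.StepI
import Pool.Agent.ThS.StepII

/-! # Module TriEx: every isometry has a triangular system -/

namespace ThS
open Module

variable {K V : Type*} [Field K] [AddCommGroup V] [Module K V] (q : AF K V)
variable {U : Submodule K V} {G : V →ₗ[K] V}

/-- `h w (G w) = 0` for all `w ∈ U`: polarize, `h v (G w) = - h w (G v) = h (G v) w`, so (`h (G v) (G (G w)) = h v (G w)`)
`h (G v) (G (G w) - w) = 0` for all `v`, and `G` maps `U` onto `U` (`iso_inj`); or
`h v (G (G w)) = h (G v) (G w) = h v w` directly. -/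
theorem invol (hU : q.ND U) (hG : q.Iso U G) (h : ∀ w ∈ U, q.h w (G w) = 0) {x : V} (hx : x ∈ U) :
    G (G x) = x := by
  have hpol : ∀ v ∈ U, ∀ w ∈ U, q.h v (G w) = q.h (G v) w := by
    intro v hv w hw
    have h1 := h (v + w) (U.add_mem hv hw)
    rw [map_add, q.add_left, map_add, map_add, h v hv, h w hw] at h1
    rw [q.symm w (G v)]
    linear_combination h1
  have hGx := hG.1 x hx
  rw [← sub_eq_zero]
  refine hU _ (U.sub_mem (hG.1 _ hGx) hx) fun v hv => ?_
  refine q.swap_zero ?_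
  rw [map_sub, hpol v hv _ hGx, hG.2 v hv x hx, sub_self]

private theorem TriEx_pos [FiniteDimensional K V] {n : ℕ} (hf : finrank K U = 2 * (n + 1)) :
    ∃ x ∈ U, x ≠ 0 := by
  by_contra hcon
  push Not at hcon
  have h1 : U = ⊥ := by
    rw [eq_bot_iff]
    exact fun x hx => hcon x hx
  rw [h1, finrank_bot] at hf
  omega

/-- Induction on `n`.  `n = 0`: the empty system.  `n + 1`: if there is `w ∈ U` with `h w (G w) ≠ 0`: `stepI` with
`c = 1`.  Otherwise `invol`; take `x ≠ 0` in `U`: either `G x = -x` (an eigenvector with eigenvalue `-1`) or `x + G x` is an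
eigenvector with eigenvalue `1`; take a partner and `stepII`. -/
theorem tri_ex [FiniteDimensional K V] (n : ℕ) (U : Submodule K V) (G : V →ₗ[K] V) (hU : q.ND U)
    (hf : finrank K U = 2 * n) (hG : q.Iso U G) : ∃ l : Fin n → K, (∀ i, l i ≠ 0) ∧ q.Tri U G n l := by
  induction n generalizing U G with
  | zero =>
    exact ⟨Fin.elim0, fun i => i.elim0, Fin.elim0, Fin.elim0, ⟨fun i => i.elim0, fun i => i.elim0,
      fun i => i.elim0, fun i => i.elim0, fun i => i.elim0⟩, fun i => i.elim0, fun i => i.elim0⟩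
  | succ n ih =>
    by_cases hc : ∃ w ∈ U, q.h w (G w) ≠ 0
    · obtain ⟨w, hw, hz⟩ := hc
      have hGw := hG.1 w hw
      have hfr := perp2_finrank q hw hGw hz
      obtain ⟨l, hl, hT⟩ := ih (q.perp2 U w (G w)) (q.g1 G w) (perp2_ND q hU hw hGw hz) (by omega)
        (iso_g1 q hG hw hz)
      refine ⟨Fin.cons 1 l, ?_, stepI q hG hw hz hT 1⟩
      intro i
      refine Fin.cases ?_ (fun i => ?_) i
      · exact one_ne_zero
      · exact hl i
    · push Not at hc
      obtain ⟨x, hx, hx0⟩ := TriEx_pos hf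
      obtain ⟨w, hw, hw0, c, hc0, he⟩ : ∃ w ∈ U, w ≠ 0 ∧ ∃ c : K, c ≠ 0 ∧ G w = c • w := by
        by_cases hxx : G x = -x
        · exact ⟨x, hx, hx0, -1, neg_ne_zero.2 one_ne_zero, by rw [hxx, neg_smul, one_smul]⟩
        · refine ⟨x + G x, U.add_mem hx (hG.1 x hx), ?_, 1, one_ne_zero, ?_⟩
          · intro h0
            exact hxx (eq_neg_of_add_eq_zero_right h0)
          · rw [map_add, invol q hU hG hc hx, one_smul, add_comm]
      obtain ⟨w', hw', h1⟩ := partner q hU hw hw0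
      have h1' : q.h w w' ≠ 0 := by
        rw [q.symm w' w, h1]
        exact neg_ne_zero.2 one_ne_zero
      have hfr := perp2_finrank q hw hw' h1'
      obtain ⟨l, hl, hT⟩ := ih (q.perp2 U w w') (q.g2 G w w') (perp2_ND q hU hw hw' h1') (by omega)
        (iso_g2 q hG hw hw' h1 hc0 he)
      refine ⟨Fin.cons c l, ?_, stepII q hG hw hw' h1 hc0 he hT⟩
      intro i
      refine Fin.cases ?_ (fun i => ?_) i
      · exact hc0
      · exact hl i

/-- Case 1: there is `w ∈ U` with `h w (G w) ≠ 0`: `tri_ex` for `perp2 U w (G w)`, `g1 G w`, `stepI` with `c ≠ 0`,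
`c ≠ l 0` (`1` or `-1`).
Case 2: `invol`.  As `G` is not a scalar on `U`, there are `x, y ∈ U` with `w = x + G x ≠ 0` and `v = y - G y ≠ 0`
(otherwise `G = -1` or `G = 1` on `U`).  `G w = w`, `G v = -v`.  Let `w''` be a partner of `w` and
`w' = 2⁻¹ (w'' + G w'')`: `h w' w = 1`, `G w' = w'`.  `h w v = h (G w) (G v) = - h w v`, so `h w v = 0`,
also `h w' v = 0`: `v ∈ perp2 U w w'` and `g2 G w w' v = -v`.  With a partner `v'` of `v` in `perp2 U w w'`: `tri_ex` for
the next space (dimension `2 n`), `stepII` twice: the diagonal `1, -1, ...`. -/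
theorem tri_ne [FiniteDimensional K V] (h2 : (2 : K) ≠ 0) {n : ℕ} (hU : q.ND U)
    (hf : finrank K U = 2 * (n + 2)) (hG : q.Iso U G) (hs : ¬ Scal U G) :
    ∃ l : Fin (n + 2) → K, (∀ i, l i ≠ 0) ∧ (∃ i j, l i ≠ l j) ∧ q.Tri U G (n + 2) l := by
  have h11 : (1 : K) ≠ -1 := by
    intro h
    apply h2
    linear_combination h
  by_cases hc : ∃ w ∈ U, q.h w (G w) ≠ 0
  · obtain ⟨w, hw, hz⟩ := hc
    have hGw := hG.1 w hw
    have hfr := perp2_finrank q hw hGw hz
    obtain ⟨l, hl, hT⟩ := tri_ex q (n + 1) (q.perp2 U w (G w)) (q.g1 G w)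
      (perp2_ND q hU hw hGw hz) (by omega) (iso_g1 q hG hw hz)
    obtain ⟨c, hc0, hcl⟩ : ∃ c : K, c ≠ 0 ∧ c ≠ l 0 := by
      by_cases h : (1 : K) = l 0
      · exact ⟨-1, neg_ne_zero.2 one_ne_zero, fun h' => h11 (h.trans h'.symm)⟩
      · exact ⟨1, one_ne_zero, h⟩
    refine ⟨Fin.cons c l, ?_, ⟨0, Fin.succ 0, ?_⟩, stepI q hG hw hz hT c⟩
    · intro i
      refine Fin.cases ?_ (fun i => ?_) i
      · exact hc0
      · exact hl i
    · rw [Fin.cons_zero, Fin.cons_succ]
      exact hcl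
  · push Not at hc
    obtain ⟨x, hx, hx0⟩ : ∃ x ∈ U, x + G x ≠ 0 := by
      by_contra hcon
      push Not at hcon
      exact hs ⟨-1, fun x hx => by
        rw [neg_smul, one_smul]
        exact eq_neg_of_add_eq_zero_right (hcon x hx)⟩
    obtain ⟨y, hy, hy0⟩ : ∃ y ∈ U, y - G y ≠ 0 := by
      by_contra hcon
      push Not at hcon
      exact hs ⟨1, fun x hx => by
        rw [one_smul]
        exact (sub_eq_zero.1 (hcon x hx)).symm⟩
    obtain ⟨w, hwdef⟩ : ∃ w, w = x + G x := ⟨_, rfl⟩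
    obtain ⟨v, hvdef⟩ : ∃ v, v = y - G y := ⟨_, rfl⟩
    rw [← hwdef] at hx0
    rw [← hvdef] at hy0
    have hw : w ∈ U := by rw [hwdef]; exact U.add_mem hx (hG.1 x hx)
    have hv : v ∈ U := by rw [hvdef]; exact U.sub_mem hy (hG.1 y hy)
    have hGw : G w = w := by rw [hwdef, map_add, invol q hU hG hc hx, add_comm]
    have hGv : G v = -v := by rw [hvdef, map_sub, invol q hU hG hc hy, neg_sub]
    obtain ⟨w2, hw2, h12⟩ := partner q hU hw hx0
    obtain ⟨w', hw'def⟩ : ∃ w', w' = (2 : K)⁻¹ • (w2 + G w2) := ⟨_, rfl⟩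
    have hw' : w' ∈ U := by
      rw [hw'def]
      exact U.smul_mem _ (U.add_mem hw2 (hG.1 _ hw2))
    have h1 : q.h w' w = 1 := by
      have h3 := hG.2 w2 hw2 w hw
      rw [hGw] at h3
      rw [hw'def, q.smul_left, q.add_left, h3, h12, ← two_mul, mul_one, inv_mul_cancel₀ h2]
    have hGw' : G w' = w' := by
      rw [hw'def, map_smul, map_add, invol q hU hG hc hw2, add_comm]
    have hzero : ∀ u ∈ U, G u = u → q.h u v = 0 := by
      intro u hu hGu
      have h3 := hG.2 u hu v hv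
      rw [hGu, hGv, map_neg] at h3
      have h4 : (2 : K) * q.h u v = 0 := by linear_combination -h3
      exact (mul_eq_zero.1 h4).resolve_left h2
    have hvR : v ∈ q.perp2 U w w' := q.mem_perp2.2 ⟨hv, hzero w hw hGw, hzero w' hw' hGw'⟩
    have h1' : q.h w w' ≠ 0 := by
      rw [q.symm w' w, h1]
      exact neg_ne_zero.2 one_ne_zero
    have hR := perp2_ND q hU hw hw' h1'
    have hfr := perp2_finrank q hw hw' h1'
    have hGw1 : G w = (1 : K) • w := by rw [hGw, one_smul]
    have iR := iso_g2 q hG hw hw' h1 one_ne_zero hGw1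
    have hgv : q.g2 G w w' v = (-1 : K) • v := by
      rw [q.g2_apply, hGv, map_neg, hzero w' hw' hGw', neg_zero, zero_smul, sub_zero, neg_smul,
        one_smul]
    obtain ⟨v', hv', h5⟩ := partner q hR hvR hy0
    have h5' : q.h v v' ≠ 0 := by
      rw [q.symm v' v, h5]
      exact neg_ne_zero.2 one_ne_zero
    have hfr2 := perp2_finrank q hvR hv' h5'
    have hm1 : (-1 : K) ≠ 0 := neg_ne_zero.2 one_ne_zero
    obtain ⟨l, hl, hT⟩ := tri_ex q n (q.perp2 (q.perp2 U w w') v v') (q.g2 (q.g2 G w w') v v')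
      (perp2_ND q hR hvR hv' h5') (by omega) (iso_g2 q iR hvR hv' h5 hm1 hgv)
    have hT1 := stepII q iR hvR hv' h5 hm1 hgv hT
    have hT2 := stepII q hG hw hw' h1 one_ne_zero hGw1 hT1
    refine ⟨Fin.cons 1 (Fin.cons (-1) l), ?_, ⟨0, Fin.succ 0, ?_⟩, hT2⟩
    · intro i
      refine Fin.cases ?_ (fun i => ?_) i
      · exact one_ne_zero
      · rw [Fin.cons_succ]
        refine Fin.cases ?_ (fun i => ?_) i
        · exact hm1
        · exact hl i
    · rw [Fin.cons_zero, Fin.cons_succ, Fin.cons_zero]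
      exact h11

end ThS
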